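import Pool.Agent.U787.VS.A
import Pool.Agent.Q276.PL.All

/-!
# Very short intervals, part B: small units in very short intervals
-/

set_option autoImplicit false

namespace Pool.Agent.U787.VS

open Filter Topology Pool.Agent.Q276.PL

/-- all dyadic ranges -/
theorem b4s (hPIG : StmtPIG) : ∃ C : ℝ, 1 ≤ C ∧ ∀ (D σ z P₀ a : ℝ) (m : ℕ), C ≤ D →
    1 ≤ m → 0 ≤ σ → 2 * (2 * σ + 1) ^ 2 ≤ m → C * m ≤ Real.log D →
    1 ≤ z → z ≤ D → Real.exp 1 ≤ P₀ →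
    ({d : ℤ | a ≤ d ∧ (d : ℝ) ≤ a + D ^ (1 / (8 * (m : ℝ))) ∧ D ≤ d ∧ (d : ℝ) ≤ 2 * D ∧
      Squarefree d ∧ ∃ x y : ℤ, Fund d x y ∧ (y : ℝ) ≤ D ^ σ}.ncard : ℝ) ≤
      (2 * σ * Real.log D + 1) * (C * z * D ^ (1 / (16 * (m : ℝ))) * ((m : ℝ) ^ 2 * Real.log D) ^ 3 +
        C * (m : ℝ) ^ 2 * Real.log D * (D ^ (1 / (8 * (m : ℝ))) / P₀ + 1) +
      (D ^ (1 / (8 * (m : ℝ))) * Real.exp (3 * (1 + Real.log P₀) - Real.log z / Real.log P₀) +
        z * P₀)) := by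
  obtain ⟨C, hC1, hC⟩ := b3s hPIG
  refine ⟨C, hC1, ?_⟩
  intro D σ z P₀ a m hD hm hσ hm2 hCm hz hzD hP
  have hD1 : 1 ≤ D := by linarith
  have hD0 : 0 < D := by linarith
  have hP1 : 1 ≤ P₀ := (Real.one_le_exp (by norm_num)).trans hP
  obtain ⟨L, hL⟩ : ∃ L : ℝ, L = D ^ (1 / (8 * (m : ℝ))) := ⟨_, rfl⟩
  have hL0 : 0 < L := by
    rw [hL]
    exact Real.rpow_pos_of_pos hD0 _
  obtain ⟨B, hB⟩ : ∃ B : ℝ, B = C * z * D ^ (1 / (16 * (m : ℝ))) * ((m : ℝ) ^ 2 * Real.log D) ^ 3 +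
      C * (m : ℝ) ^ 2 * Real.log D * (L / P₀ + 1) +
      (L * Real.exp (3 * (1 + Real.log P₀) - Real.log z / Real.log P₀) + z * P₀) := ⟨_, rfl⟩
  rw [← hL, ← hB]
  have hlogD : 0 ≤ Real.log D := Real.log_nonneg hD1
  have hB0 : 0 ≤ B := by
    rw [hB]
    have : 0 ≤ D ^ (1 / (16 * (m : ℝ))) := Real.rpow_nonneg hD0.le _
    positivity
  obtain ⟨S, hS⟩ : ∃ S : ℕ → Set ℤ, S = fun (i : ℕ) => {d : ℤ | a ≤ d ∧
    (d : ℝ) ≤ a + L ∧ D ≤ d ∧ (d : ℝ) ≤ 2 * D ∧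
    Squarefree d ∧
    ∃ x y : ℤ, Fund d x y ∧ (2 : ℝ) ^ i ≤ y ∧ (y : ℝ) < 2 * 2 ^ i} := ⟨_, rfl⟩
  have hSf : ∀ i, (S i).Finite := by
    intro i
    refine (Set.finite_Icc ⌈D⌉ ⌊2 * D⌋).subset ?_
    rw [hS]
    rintro d ⟨_, _, h3, h4, _⟩
    exact ⟨Int.ceil_le.2 h3, Int.le_floor.2 h4⟩
  have hSb : ∀ i, (2 : ℝ) ^ i ≤ D ^ σ → ((S i).ncard : ℝ) ≤ B := by
    intro i hi
    have := hC D (2 ^ i) σ z P₀ a m hD hm hσ hm2 hCm (one_le_pow₀ (by norm_num)) hi hz hzD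
      hP
    rw [← hL, ← hB] at this
    rw [hS]
    exact this
  -- the index set
  obtain ⟨I, hI⟩ : ∃ I : Finset ℕ, I =
    (Finset.range (⌊2 * σ * Real.log D⌋₊ + 1)).filter (fun i => (2 : ℝ) ^ i ≤ D ^ σ) := ⟨_, rfl⟩
  have hcov : {d : ℤ | a ≤ d ∧ (d : ℝ) ≤ a + L ∧ D ≤ d ∧ (d : ℝ) ≤ 2 * D ∧ Squarefree d ∧
      ∃ x y : ℤ, Fund d x y ∧ (y : ℝ) ≤ D ^ σ} ⊆
      ((I.biUnion fun p => (hSf p).toFinset : Finset ℤ) : Set ℤ) := by
    rintro d ⟨ha1, ha2, h1, h2, h3, x, y, hxy, hy⟩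
    have hy1 : 1 ≤ y := hxy.2.1
    obtain ⟨n, rfl⟩ : ∃ n : ℕ, y = n := ⟨y.toNat, by omega⟩
    have hn : n ≠ 0 := by
      rintro rfl
      simp at hy1
    obtain ⟨i, hi⟩ : ∃ i : ℕ, i = Nat.log 2 n := ⟨_, rfl⟩
    have hi1 : 2 ^ i ≤ n := by
      rw [hi]
      exact Nat.pow_log_le_self 2 hn
    have hi2 : n < 2 ^ (i + 1) := by
      rw [hi]
      exact Nat.lt_pow_succ_log_self (by norm_num) n
    have hi3 : (2 : ℝ) ^ i ≤ n := by exact_mod_cast hi1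
    have hi4 : (n : ℝ) < 2 * 2 ^ i := by
      have : (n : ℝ) < 2 ^ (i + 1) := by exact_mod_cast hi2
      rw [pow_succ] at this
      linarith
    have hyn : (n : ℝ) ≤ D ^ σ := by exact_mod_cast hy
    have hi5 : (2 : ℝ) ^ i ≤ D ^ σ := hi3.trans hyn
    have hi6 : (i : ℝ) ≤ 2 * σ * Real.log D := by
      have e1 := Real.log_le_log (by positivity) hi5
      rw [Real.log_pow, Real.log_rpow hD0] at e1
      have e2 : (1 : ℝ) / 2 ≤ Real.log 2 := by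
        have := Real.log_two_gt_d9
        linarith
      have e3 : (i : ℝ) * (1 / 2) ≤ i * Real.log 2 :=
        mul_le_mul_of_nonneg_left e2 (Nat.cast_nonneg i)
      linarith
    rw [Finset.mem_coe, Finset.mem_biUnion]
    refine ⟨i, ?_, ?_⟩
    · rw [hI, Finset.mem_filter, Finset.mem_range]
      exact ⟨Nat.lt_succ_of_le (Nat.le_floor hi6), hi5⟩
    · rw [Set.Finite.mem_toFinset, hS]
      refine ⟨ha1, ha2, h1, h2, h3, x, n, hxy, ?_, ?_⟩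
      · exact_mod_cast hi3
      · exact_mod_cast hi4
  have h1 := Set.ncard_le_ncard hcov (Finset.finite_toSet _)
  rw [Set.ncard_coe_finset] at h1
  have h2 : (I.biUnion fun p => (hSf p).toFinset).card ≤ I.card * ⌊B⌋₊ := by
    refine Finset.card_biUnion_le_card_mul _ _ _ fun p hp => ?_
    rw [hI, Finset.mem_filter] at hp
    rw [← Set.ncard_eq_toFinset_card _ (hSf p)]
    exact Nat.le_floor (hSb p hp.2)
  have h3 : (I.card : ℝ) ≤ 2 * σ * Real.log D + 1 := by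
    have e1 : I.card ≤ ⌊2 * σ * Real.log D⌋₊ + 1 := by
      rw [hI]
      refine (Finset.card_filter_le _ _).trans ?_
      rw [Finset.card_range]
    have e2 : (I.card : ℝ) ≤ (⌊2 * σ * Real.log D⌋₊ : ℝ) + 1 := by
      exact_mod_cast e1
    have e4 : (⌊2 * σ * Real.log D⌋₊ : ℝ) ≤ 2 * σ * Real.log D := Nat.floor_le (by positivity)
    linarith
  have h4 : ((I.biUnion fun p => (hSf p).toFinset).card : ℝ) ≤ (I.card : ℝ) * (⌊B⌋₊ : ℝ) := by
    exact_mod_cast h2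
  have h5 : (⌊B⌋₊ : ℝ) ≤ B := Nat.floor_le hB0
  calc _ ≤ ((I.biUnion fun p => (hSf p).toFinset).card : ℝ) := by exact_mod_cast h1
    _ ≤ (I.card : ℝ) * (⌊B⌋₊ : ℝ) := h4
    _ ≤ (2 * σ * Real.log D + 1) * B :=
        mul_le_mul h3 h5 (Nat.cast_nonneg _) (by positivity)

/-- the parameters: one interval of length `L ≤ exp (307 u ^ 2)` -/
theorem blku : ∃ C₀ : ℝ, 1 ≤ C₀ ∧ ∀ D u : ℝ, C₀ ≤ D → 12 * Real.log (Real.log D) ≤ u →
    140 * u ≤ √(Real.log D) →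
    ∃ L : ℝ, 1 ≤ L ∧ L ≤ Real.exp (307 * u ^ 2) ∧ ∀ a : ℝ,
    ({d : ℤ | a ≤ d ∧ (d : ℝ) ≤ a + L ∧ D ≤ d ∧ (d : ℝ) ≤ 2 * D ∧ Squarefree d ∧
      ∃ x y : ℤ, Fund d x y ∧ (y : ℝ) ≤
        Real.exp (Real.log D * √(Real.log D) / (140 * u))}.ncard : ℝ) ≤
      L * Real.exp (-u) / 2 := by
  obtain ⟨C₉, hC₉, hB⟩ := b4s pig_true
  obtain ⟨K, hK⟩ : ∃ K : ℝ, K = C₉ * (361 ^ 3 + 722) + 2 := ⟨_, rfl⟩
  have hK0 : 0 ≤ K := by rw [hK]; positivity
  have hll : Tendsto (fun D : ℝ => Real.log (Real.log D)) atTop atTop :=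
    Real.tendsto_log_atTop.comp Real.tendsto_log_atTop
  obtain ⟨D₁, hD₁⟩ := Filter.eventually_atTop.1
    ((hll.eventually (eventually_ge_atTop (C₉ + 1))).and
      ((Real.tendsto_log_atTop.eventually (eventually_ge_atTop (6 * K + 3))).and
      (eventually_ge_atTop C₉)))
  refine ⟨max 1 D₁, le_max_left _ _, fun D u hD hu hu2 => ?_⟩
  obtain ⟨h2, h3, h5⟩ := hD₁ D ((le_max_right _ _).trans hD)
  have hD1 : 1 ≤ D := (le_max_left _ _).trans hD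
  have hD0 : 0 < D := by linarith
  set l := Real.log D with hl
  have h4 : 1 ≤ l := by linarith
  have hl0 : 0 < l := by linarith
  have hDl : D = Real.exp l := (Real.exp_log hD0).symm
  have hu1 : 1 ≤ u := by linarith
  have huC : C₉ ≤ u := by linarith
  have hu0 : 0 < u := by linarith
  set sl : ℝ := √l with hsl
  have hsl2 : sl ^ 2 = l := Real.sq_sqrt hl0.le
  have hsl0 : 0 < sl := Real.sqrt_pos.2 hl0
  have hsl1 : 1 ≤ sl := by
    rw [hsl, Real.one_le_sqrt]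
    exact h4
  set σ : ℝ := sl / (140 * u) with hσ
  have hσ1 : 1 ≤ σ := by
    rw [hσ, one_le_div (by positivity)]
    exact hu2
  have hσu : σ * (140 * u) = sl := by
    rw [hσ]
    field_simp
  have hσ2 : σ ^ 2 * (19600 * u ^ 2) = l := by
    rw [← hsl2, ← hσu]
    ring
  have hσ2l : σ ^ 2 ≤ l := by
    have : (1 : ℝ) ≤ 19600 * u ^ 2 := by nlinarith
    have h0 : 0 ≤ σ ^ 2 := sq_nonneg σ
    nlinarith
  have hσl : σ ≤ l := by
    nlinarith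
  set m : ℕ := ⌈2 * (2 * σ + 1) ^ 2⌉₊ with hm
  have hmlo : 2 * (2 * σ + 1) ^ 2 ≤ m := Nat.le_ceil _
  have hmhi : (m : ℝ) ≤ 19 * σ ^ 2 := by
    have h6 : (m : ℝ) < 2 * (2 * σ + 1) ^ 2 + 1 := Nat.ceil_lt_add_one (by positivity)
    nlinarith
  have hm0 : 0 < m := Nat.ceil_pos.2 (by positivity)
  have hm0' : (0 : ℝ) < m := by exact_mod_cast hm0
  have hu21 : u ≤ u ^ 2 := by nlinarith
  have hCm : C₉ * m ≤ l := by
    calc C₉ * m ≤ C₉ * (19 * σ ^ 2) := mul_le_mul_of_nonneg_left hmhi (by linarith)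
      _ = (19 * C₉) * σ ^ 2 := by ring
      _ ≤ (19600 * u ^ 2) * σ ^ 2 := by
          apply mul_le_mul_of_nonneg_right _ (by positivity)
          nlinarith
      _ = l := by rw [← hσ2]; ring
  set w : ℝ := l / (8 * m) with hw
  have hwlo : 128 * u ^ 2 ≤ w := by
    rw [hw, le_div_iff₀ (by positivity)]
    calc 128 * u ^ 2 * (8 * m) ≤ 128 * u ^ 2 * (8 * (19 * σ ^ 2)) :=
          mul_le_mul_of_nonneg_left (by linarith) (by positivity)
      _ ≤ σ ^ 2 * (19600 * u ^ 2) := by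
          have : 0 ≤ σ ^ 2 * u ^ 2 := by positivity
          nlinarith
      _ = l := hσ2
  have hwhi : w ≤ 307 * u ^ 2 := by
    rw [hw, div_le_iff₀ (by positivity)]
    calc l = σ ^ 2 * (19600 * u ^ 2) := hσ2.symm
      _ ≤ 307 * u ^ 2 * (8 * (8 * σ ^ 2)) := by
          have : 0 ≤ σ ^ 2 * u ^ 2 := by positivity
          nlinarith
      _ ≤ 307 * u ^ 2 * (8 * m) := by
          apply mul_le_mul_of_nonneg_left _ (by positivity)
          nlinarith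
  have hm1' : (1 : ℝ) ≤ m := by exact_mod_cast hm0
  have hwl : w ≤ l := by
    rw [hw, div_le_iff₀ (by positivity)]
    nlinarith
  have hw0 : 0 < w := by positivity
  have hL : D ^ (1 / (8 * (m : ℝ))) = Real.exp w := by
    rw [Real.rpow_def_of_pos hD0, ← hl, hw]
    congr 1
    ring
  have hL2 : D ^ (1 / (16 * (m : ℝ))) = Real.exp (w / 2) := by
    rw [Real.rpow_def_of_pos hD0, ← hl, hw]
    congr 1
    field_simp
    norm_num
  obtain ⟨t, ht⟩ : ∃ t : ℝ, t = 2 * u := ⟨_, rfl⟩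
  have ht0 : 0 < t := by rw [ht]; linarith
  refine ⟨Real.exp w, Real.one_le_exp hw0.le, Real.exp_le_exp.2 hwhi, fun a => ?_⟩
  set e : ℝ := Real.exp (-t) with he
  have he0 : 0 < e := Real.exp_pos _
  have hw4t : 8 * t ≤ w := by
    rw [ht]
    linarith
  have hT2 := hB D σ (Real.exp (w / 4)) (Real.exp t) a m h5 hm0 (by linarith) hmlo hCm
    (Real.one_le_exp (by positivity))
    (by rw [hDl]; exact Real.exp_le_exp.2 (by linarith))
    (Real.exp_le_exp.2 (by linarith))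
  rw [hL, hL2, Real.log_exp, Real.log_exp] at hT2
  have hm19 : (m : ℝ) ≤ 19 * l := by linarith
  have hm2 : (m : ℝ) ^ 2 * l ≤ 361 * l ^ 3 := by
    calc (m : ℝ) ^ 2 * l ≤ (19 * l) ^ 2 * l :=
          mul_le_mul_of_nonneg_right (pow_le_pow_left₀ hm0'.le hm19 2) hl0.le
      _ = 361 * l ^ 3 := by ring
  have hl9 : (1 : ℝ) ≤ l ^ 9 := one_le_pow₀ h4
  have hl39 : l ^ 3 ≤ l ^ 9 := pow_le_pow_right₀ h4 (by norm_num)
  -- the four terms
  have k1 : C₉ * Real.exp (w / 4) * Real.exp (w / 2) * ((m : ℝ) ^ 2 * l) ^ 3 ≤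
      Real.exp w * e * (C₉ * 361 ^ 3 * l ^ 9) := by
    have h9 : Real.exp (w / 4) * Real.exp (w / 2) ≤ Real.exp w * e := by
      rw [he, ← Real.exp_add, ← Real.exp_add]
      apply Real.exp_le_exp.2
      linarith
    have h10 : ((m : ℝ) ^ 2 * l) ^ 3 ≤ 361 ^ 3 * l ^ 9 := by
      calc ((m : ℝ) ^ 2 * l) ^ 3 ≤ (361 * l ^ 3) ^ 3 := pow_le_pow_left₀ (by positivity) hm2 3
        _ = 361 ^ 3 * l ^ 9 := by ring
    calc C₉ * Real.exp (w / 4) * Real.exp (w / 2) * ((m : ℝ) ^ 2 * l) ^ 3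
        = C₉ * ((Real.exp (w / 4) * Real.exp (w / 2)) * ((m : ℝ) ^ 2 * l) ^ 3) := by ring
      _ ≤ C₉ * ((Real.exp w * e) * (361 ^ 3 * l ^ 9)) := by
          apply mul_le_mul_of_nonneg_left _ (by linarith)
          exact mul_le_mul h9 h10 (by positivity) (by positivity)
      _ = _ := by ring
  have k2 : C₉ * (m : ℝ) ^ 2 * l * (Real.exp w / Real.exp t + 1) ≤
      Real.exp w * e * (C₉ * 722 * l ^ 9) := by
    have h9 : Real.exp w / Real.exp t = Real.exp w * e := by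
      rw [he, Real.exp_neg, div_eq_mul_inv]
    have h10 : 1 ≤ Real.exp w * e := by
      rw [he, ← Real.exp_add]
      exact Real.one_le_exp (by linarith)
    rw [h9]
    calc C₉ * (m : ℝ) ^ 2 * l * (Real.exp w * e + 1) = C₉ * ((m : ℝ) ^ 2 * l) * (Real.exp w * e + 1) := by
          ring
      _ ≤ C₉ * (361 * l ^ 9) * (2 * (Real.exp w * e)) := by
          apply mul_le_mul _ (by linarith) (by positivity) (by positivity)
          apply mul_le_mul_of_nonneg_left _ (by linarith)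
          linarith
      _ = _ := by ring
  have k3 : Real.exp w * Real.exp (3 * (1 + t) - w / 4 / t) ≤ Real.exp w * e * 1 := by
    rw [mul_one]
    apply mul_le_mul_of_nonneg_left _ (Real.exp_pos w).le
    rw [he]
    apply Real.exp_le_exp.2
    have h9 : 3 * (1 + t) + t ≤ w / 4 / t := by
      rw [le_div_iff₀ ht0, ht]
      nlinarith
    linarith
  have k4 : Real.exp (w / 4) * Real.exp t ≤ Real.exp w * e * 1 := by
    rw [mul_one, he, ← Real.exp_add, ← Real.exp_add]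
    apply Real.exp_le_exp.2
    linarith
  have hX0 : 0 ≤ Real.exp w * e := by positivity
  have hsum : C₉ * Real.exp (w / 4) * Real.exp (w / 2) * ((m : ℝ) ^ 2 * l) ^ 3 +
      C₉ * (m : ℝ) ^ 2 * l * (Real.exp w / Real.exp t + 1) +
      (Real.exp w * Real.exp (3 * (1 + t) - w / 4 / t) + Real.exp (w / 4) * Real.exp t) ≤
      Real.exp w * e * (K * l ^ 9) := by
    have h9 : Real.exp w * e * 1 ≤ Real.exp w * e * l ^ 9 := mul_le_mul_of_nonneg_left hl9 hX0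
    rw [hK]
    linarith
  have h7 : 2 * σ * l + 1 ≤ 3 * l ^ 2 := by nlinarith
  have hDσ : D ^ σ = Real.exp (l * sl / (140 * u)) := by
    rw [Real.rpow_def_of_pos hD0, ← hl, hσ]
    congr 1
    ring
  rw [hDσ] at hT2
  refine hT2.trans ?_
  have hKl : 6 * K * l ^ 11 ≤ Real.exp u := by
    have h8 : l ^ 12 ≤ Real.exp u := by
      have h9 : Real.exp (((12 : ℕ) : ℝ) * Real.log l) = l ^ 12 := by
        rw [Real.exp_nat_mul, Real.exp_log hl0]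
      rw [← h9]
      apply Real.exp_le_exp.2
      push_cast
      exact hu
    refine le_trans ?_ h8
    calc 6 * K * l ^ 11 ≤ l * l ^ 11 := mul_le_mul_of_nonneg_right (by linarith) (by positivity)
      _ = l ^ 12 := by ring
  have hee : Real.exp u * e = Real.exp (-u) := by
    rw [he, ← Real.exp_add, ht]
    congr 1
    ring
  calc (2 * σ * l + 1) * (C₉ * Real.exp (w / 4) * Real.exp (w / 2) * ((m : ℝ) ^ 2 * l) ^ 3 +
      C₉ * (m : ℝ) ^ 2 * l * (Real.exp w / Real.exp t + 1) +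
      (Real.exp w * Real.exp (3 * (1 + t) - w / 4 / t) + Real.exp (w / 4) * Real.exp t))
      ≤ (3 * l ^ 2) * (Real.exp w * e * (K * l ^ 9)) := by
        apply mul_le_mul h7 hsum (by positivity) (by positivity)
    _ = Real.exp w * ((6 * K * l ^ 11) * e) / 2 := by ring
    _ ≤ Real.exp w * (Real.exp u * e) / 2 := by
        apply div_le_div_of_nonneg_right _ (by norm_num)
        apply mul_le_mul_of_nonneg_left _ (Real.exp_pos w).le
        exact mul_le_mul_of_nonneg_right hKl he0.le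
    _ = Real.exp w * Real.exp (-u) / 2 := by rw [hee]

/-- covering an interval -/
theorem cover (S : Set ℤ) (a H L B : ℝ) (hL : 0 < L) (hLH : L ≤ H) (hS : S.Finite)
    (hSa : ∀ d ∈ S, a ≤ d ∧ (d : ℝ) ≤ a + H)
    (hB : ∀ b : ℝ, ((S ∩ {d : ℤ | b ≤ d ∧ (d : ℝ) ≤ b + L}).ncard : ℝ) ≤ L * B / 2) :
    (S.ncard : ℝ) ≤ H * B := by
  classical
  have hfin : ∀ j : ℕ, (S ∩ {d : ℤ | a + j * L ≤ d ∧ (d : ℝ) ≤ a + j * L + L}).Finite :=
    fun j => hS.subset Set.inter_subset_left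
  have hsub : S ⊆ (((Finset.range (⌊H / L⌋₊ + 1)).biUnion fun j => (hfin j).toFinset : Finset ℤ) :
      Set ℤ) := by
    intro d hd
    obtain ⟨h1, h2⟩ := hSa d hd
    have h0 : 0 ≤ ((d : ℝ) - a) / L := div_nonneg (by linarith) hL.le
    have hj1 : (⌊((d : ℝ) - a) / L⌋₊ : ℝ) ≤ ((d : ℝ) - a) / L := Nat.floor_le h0
    have hj2 : ((d : ℝ) - a) / L < (⌊((d : ℝ) - a) / L⌋₊ : ℝ) + 1 := Nat.lt_floor_add_one _
    rw [le_div_iff₀ hL] at hj1
    rw [div_lt_iff₀ hL] at hj2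
    rw [Finset.mem_coe, Finset.mem_biUnion]
    refine ⟨⌊((d : ℝ) - a) / L⌋₊, ?_, ?_⟩
    · rw [Finset.mem_range]
      exact Nat.lt_succ_of_le (Nat.floor_le_floor (div_le_div_of_nonneg_right (by linarith) hL.le))
    · rw [Set.Finite.mem_toFinset]
      exact ⟨hd, by show _ ≤ _; linarith, by linarith⟩
  have h1 := Set.ncard_le_ncard hsub (Finset.finite_toSet _)
  rw [Set.ncard_coe_finset] at h1
  have h2 := h1.trans Finset.card_biUnion_le
  have h3 : ((S.ncard : ℕ) : ℝ) ≤ ∑ j ∈ Finset.range (⌊H / L⌋₊ + 1), ((hfin j).toFinset.card : ℝ) := by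
    exact_mod_cast h2
  refine h3.trans ?_
  have h4 : ∀ j ∈ Finset.range (⌊H / L⌋₊ + 1), ((hfin j).toFinset.card : ℝ) ≤ L * B / 2 := by
    intro j _
    rw [← Set.ncard_eq_toFinset_card _ (hfin j)]
    exact hB (a + j * L)
  refine (Finset.sum_le_sum h4).trans ?_
  rw [Finset.sum_const, Finset.card_range, nsmul_eq_mul]
  push_cast
  have hHL : 1 ≤ H / L := by rwa [one_le_div hL]
  have h5 : (⌊H / L⌋₊ : ℝ) ≤ H / L := Nat.floor_le (by linarith)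
  have h6 : 0 ≤ L * B / 2 := le_trans (by positivity) (hB a)
  calc ((⌊H / L⌋₊ : ℝ) + 1) * (L * B / 2) ≤ (2 * (H / L)) * (L * B / 2) :=
        mul_le_mul_of_nonneg_right (by linarith) h6
    _ = H * B := by field_simp

/-- units in very short intervals -/
theorem units : ∃ C₀ : ℝ, 1 ≤ C₀ ∧ ∀ D u : ℝ, C₀ ≤ D → 12 * Real.log (Real.log D) ≤ u →
    140 * u ≤ √(Real.log D) → ∀ a H : ℝ, Real.exp (307 * u ^ 2) ≤ H →
    ({d : ℤ | a ≤ d ∧ (d : ℝ) ≤ a + H ∧ D ≤ d ∧ (d : ℝ) ≤ 2 * D ∧ Squarefree d ∧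
      ∃ x y : ℤ, 1 ≤ y ∧ (y : ℝ) ≤ Real.exp (Real.log D * √(Real.log D) / (140 * u)) ∧
        x ^ 2 - d * y ^ 2 = 1}.ncard : ℝ) ≤
      H * Real.exp (-u) := by
  obtain ⟨C₀, h1, h⟩ := blku
  refine ⟨C₀, h1, fun D u hD hu hu2 a H hH => ?_⟩
  obtain ⟨L, hL1, hL2, hL3⟩ := h D u hD hu hu2
  have hD1 : 1 ≤ D := h1.trans hD
  obtain ⟨S, hS⟩ : ∃ S : Set ℤ, S = {d : ℤ | a ≤ d ∧ (d : ℝ) ≤ a + H ∧ D ≤ d ∧
      (d : ℝ) ≤ 2 * D ∧ Squarefree d ∧
      ∃ x y : ℤ, 1 ≤ y ∧ (y : ℝ) ≤ Real.exp (Real.log D * √(Real.log D) / (140 * u)) ∧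
        x ^ 2 - d * y ^ 2 = 1} := ⟨_, rfl⟩
  rw [← hS]
  have hSf : S.Finite := by
    refine (Pool.Agent.Q65.PL.finite_int D (2 * D)).subset ?_
    rw [hS]
    rintro d ⟨_, _, h3, h4, _⟩
    exact ⟨h3, h4⟩
  refine cover S a H L _ (by linarith) (hL2.trans hH) hSf ?_ ?_
  · intro d hd
    rw [hS] at hd
    exact ⟨hd.1, hd.2.1⟩
  · intro b
    refine le_trans ?_ (hL3 b)
    have hfin : {d : ℤ | b ≤ d ∧ (d : ℝ) ≤ b + L ∧ D ≤ d ∧ (d : ℝ) ≤ 2 * D ∧ Squarefree d ∧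
      ∃ x y : ℤ, Fund d x y ∧
        (y : ℝ) ≤ Real.exp (Real.log D * √(Real.log D) / (140 * u))}.Finite := by
      refine (Pool.Agent.Q65.PL.finite_int b (b + L)).subset ?_
      rintro d ⟨h3, h4, _⟩
      exact ⟨h3, h4⟩
    have hsub : S ∩ {d : ℤ | b ≤ d ∧ (d : ℝ) ≤ b + L} ⊆
        {d : ℤ | b ≤ d ∧ (d : ℝ) ≤ b + L ∧ D ≤ d ∧ (d : ℝ) ≤ 2 * D ∧ Squarefree d ∧
      ∃ x y : ℤ, Fund d x y ∧
        (y : ℝ) ≤ Real.exp (Real.log D * √(Real.log D) / (140 * u))} := by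
      rintro d ⟨hd, hb1, hb2⟩
      rw [hS] at hd
      obtain ⟨_, _, h3, h4, h5, x, y, hy1, hy2, hxy⟩ := hd
      have hd1 : 1 ≤ d := by
        have : (1 : ℝ) ≤ d := hD1.trans h3
        exact_mod_cast this
      obtain ⟨x', y', hF, hle⟩ := Pool.Agent.Q144.UF.exists_fund d x y hd1 hy1 hxy
      refine ⟨hb1, hb2, h3, h4, h5, x', y', hF, le_trans ?_ hy2⟩
      exact_mod_cast hle
    exact_mod_cast Set.ncard_le_ncard hsub hfin

end Pool.Agent.U787.VS
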