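import Pool.Agent.U787.VS.D

/-!
# Very short intervals, part E: second moment over a short interval
-/

set_option autoImplicit false

namespace Pool.Agent.U787.VS

open Finset Filter NumberField Pool.Agent.H38R2.CG Pool.Agent.H38R2.CG.LM2h Pool.Agent.Q276.PL
open Pool.Agent.U689.CN (PVC exPVC sqrt_sum)

theorem rr_nonneg {K : Type} [Field K] [NumberField K] {d : ℕ} (h1 : 1 < d) (hs : Squarefree d)
    (h2 : Module.finrank ℚ K = 2) (hx : ∃ x : K, x ^ 2 = (d : K)) (n : ℕ) (hn : 1 ≤ n) :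
    0 ≤ rr (dsc d) n := by
  have h := Pool.Agent.U689.CN.n2 K (dsc d) (Pool.Agent.U689.CN.isFund_dsc h1 hs) h2
    (Pool.Agent.U689.CN.discr_eq h1 hs h2 hx) n hn
  have e : rr (dsc d) n =
      ((Nat.card {I : Ideal (𝓞 K) // Ideal.absNorm I = n} : ℤ) : ℝ) := by
    rw [h]
    unfold rr
    push_cast
    rfl
  rw [e]
  positivity

theorem jac_sum2 {C : ℝ} (hC : PVC C) {M : ℕ} (hM : Odd M) (hsq : ¬ IsSquare M) (a b : ℕ) :
    |∑ m ∈ Ioc a b, ((jacobiSym (m : ℤ) M : ℤ) : ℝ)| ≤ C * √(M : ℝ) * Real.log M := by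
  have hm0 : M ≠ 0 := by rintro rfl; simp at hM
  have hm2 : 2 ≤ M := by
    by_contra h
    have : M = 1 := by omega
    exact hsq (this ▸ ⟨1, rfl⟩)
  have : NeZero M := ⟨hm0⟩
  have h := hC.2 M (jch M) hm2 (jch_ne_one M hM hsq) a b
  have e : ∑ n ∈ Finset.Ioc a b, jch M (n : ZMod M) =
      ((∑ m ∈ Ioc a b, ((jacobiSym (m : ℤ) M : ℤ) : ℝ) : ℝ) : ℂ) := by
    push_cast
    apply Finset.sum_congr rfl
    intro n _
    rw [jch_apply]
  rw [e, Complex.norm_real] at h
  exact h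

/-- the short sum over primes -/
noncomputable def SS (w : ℕ → ℝ) (y z m : ℕ) : ℝ :=
  ∑ p ∈ (Ioc y z).filter Nat.Prime, w p * ((jacobiSym (m : ℤ) p : ℤ) : ℝ)

theorem not_sq_mul {p q : ℕ} (hp : p.Prime) (hq : q.Prime) (hpq : p ≠ q) : ¬ IsSquare (p * q) := by
  rintro ⟨k, hk⟩
  have h1 : p ∣ k * k := ⟨q, hk.symm⟩
  have h2 : p ∣ k := by
    rcases (hp.dvd_mul).1 h1 with h | h <;> exact h
  obtain ⟨m, rfl⟩ := h2
  have h3 : q = p * (m * m) := by
    have : p * q = p * (p * (m * m)) := by rw [hk]; ring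
    exact Nat.eq_of_mul_eq_mul_left hp.pos this
  have h4 : p ∣ q := ⟨m * m, h3⟩
  exact hpq ((Nat.prime_dvd_prime_iff_eq hp hq).1 h4)

/-- second moment -/
theorem moment {C : ℝ} (hC : PVC C) (w : ℕ → ℝ) (hw : ∀ p : ℕ, 1 ≤ p → |w p| ≤ 1 / (p : ℝ))
    (x H y z : ℕ) (hy : 2 ≤ y) :
    ∑ m ∈ Ioc x (x + H), SS w y z m ^ 2 ≤ H / (y : ℝ) + 8 * C * z * Real.log z := by
  have hC0 := hC.1
  set S := (Ioc y z).filter Nat.Prime with hS
  have hSm : ∀ p ∈ S, y < p ∧ p ≤ z ∧ p.Prime := by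
    intro n hn
    rw [hS, Finset.mem_filter, Finset.mem_Ioc] at hn
    exact ⟨hn.1.1, hn.1.2, hn.2⟩
  have hexp : ∑ m ∈ Ioc x (x + H), SS w y z m ^ 2 = ∑ p ∈ S, ∑ q ∈ S,
      (w p * w q) * ∑ m ∈ Ioc x (x + H), ((jacobiSym (m : ℤ) p : ℤ) : ℝ) *
          ((jacobiSym (m : ℤ) q : ℤ) : ℝ) := by
    have e1 : ∀ m : ℕ, SS w y z m ^ 2 = ∑ p ∈ S, ∑ q ∈ S,
        (w p * w q) *
        (((jacobiSym (m : ℤ) p : ℤ) : ℝ) * ((jacobiSym (m : ℤ) q : ℤ) : ℝ)) := by
      intro m
      rw [pow_two]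
      unfold SS
      rw [Finset.sum_mul_sum]
      apply Finset.sum_congr rfl
      intro n1 _
      apply Finset.sum_congr rfl
      intro n2 _
      ring
    simp only [e1]
    rw [Finset.sum_comm]
    apply Finset.sum_congr rfl
    intro n1 _
    rw [Finset.sum_comm]
    apply Finset.sum_congr rfl
    intro n2 _
    rw [Finset.mul_sum]
  rw [hexp]
  have hterm : ∀ p ∈ S, ∀ q ∈ S, (w p * w q) *
        ∑ m ∈ Ioc x (x + H), ((jacobiSym (m : ℤ) p : ℤ) : ℝ) *
          ((jacobiSym (m : ℤ) q : ℤ) : ℝ) ≤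
      (if p = q then (H : ℝ) * (((p : ℝ))⁻¹) ^ 2 else 0) +
        2 * C * Real.log z * (1 / √(p : ℝ) * (1 / √(q : ℝ))) := by
    intro p hp q hq
    obtain ⟨hp1, hp2, hp3⟩ := hSm p hp
    obtain ⟨hq1, hq2, hq3⟩ := hSm q hq
    have r1 : (1 : ℝ) ≤ p := by exact_mod_cast hp3.one_lt.le
    have r2 : (1 : ℝ) ≤ q := by exact_mod_cast hq3.one_lt.le
    have z1 : (p : ℝ) ≤ z := by exact_mod_cast hp2
    have z2 : (q : ℝ) ≤ z := by exact_mod_cast hq2
    have hpos : 0 < (p : ℝ) * q := by positivity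
    have hlz : 0 ≤ Real.log z := Real.log_nonneg (by linarith)
    have hlast : 0 ≤ 2 * C * Real.log z * (1 / √(p : ℝ) * (1 / √(q : ℝ))) := by positivity
    have hcoef : |w p * w q| ≤ 1 / ((p : ℝ) * q) := by
      rw [abs_mul]
      have a1 := hw p (by omega)
      have a2 := hw q (by omega)
      calc |w p| * |w q| ≤ (1 / (p : ℝ)) * (1 / (q : ℝ)) :=
            mul_le_mul a1 a2 (abs_nonneg _) (by positivity)
        _ = _ := by rw [one_div_mul_one_div]
    have h1 := le_abs_self ((w p * w q) *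
        ∑ m ∈ Ioc x (x + H), ((jacobiSym (m : ℤ) p : ℤ) : ℝ) *
          ((jacobiSym (m : ℤ) q : ℤ) : ℝ))
    rw [abs_mul] at h1
    by_cases hpq : p = q
    · subst hpq
      rw [if_pos rfl]
      have h2 : |∑ m ∈ Ioc x (x + H), ((jacobiSym (m : ℤ) p : ℤ) : ℝ) *
          ((jacobiSym (m : ℤ) p : ℤ) : ℝ)| ≤ H := by
        refine (Finset.abs_sum_le_sum_abs _ _).trans ?_
        calc ∑ m ∈ Ioc x (x + H), |((jacobiSym (m : ℤ) p : ℤ) : ℝ) * ((jacobiSym (m : ℤ) p : ℤ) : ℝ)|
            ≤ ∑ m ∈ Ioc x (x + H), (1 : ℝ) := by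
              apply Finset.sum_le_sum
              intro m _
              rw [abs_mul]
              have := abs_jac (m : ℤ) p
              have h0 := abs_nonneg ((jacobiSym (m : ℤ) p : ℤ) : ℝ)
              nlinarith
          _ = H := by simp
      have h3 := mul_le_mul hcoef h2 (abs_nonneg _) (by positivity)
      have h4 : 1 / ((p : ℝ) * p) * H = H * (((p : ℝ))⁻¹) ^ 2 := by
        rw [one_div, mul_inv]
        ring
      linarith
    · rw [if_neg hpq, zero_add]
      have hoddp : Odd p := hp3.odd_of_ne_two (by omega)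
      have hoddq : Odd q := hq3.odd_of_ne_two (by omega)
      have i1 : NeZero p := ⟨hp3.ne_zero⟩
      have i2 : NeZero q := ⟨hq3.ne_zero⟩
      have e : ∀ m : ℕ, ((jacobiSym (m : ℤ) p : ℤ) : ℝ) * ((jacobiSym (m : ℤ) q : ℤ) : ℝ) =
          ((jacobiSym (m : ℤ) (p * q) : ℤ) : ℝ) := by
        intro m
        rw [jacobiSym.mul_right]
        push_cast
        rfl
      simp only [e] at h1 ⊢
      have h2 := jac_sum2 hC (hoddp.mul hoddq) (not_sq_mul hp3 hq3 hpq) x (x + H)
      have h3 := mul_le_mul hcoef h2 (abs_nonneg _) (by positivity)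
      refine (h1.trans h3).trans ?_
      push_cast
      have hl : Real.log ((p : ℝ) * q) ≤ 2 * Real.log z := by
        have : (p : ℝ) * q ≤ (z : ℝ) ^ 2 := by nlinarith
        calc Real.log ((p : ℝ) * q) ≤ Real.log ((z : ℝ) ^ 2) := Real.log_le_log hpos this
          _ = 2 * Real.log z := by rw [Real.log_pow]; norm_num
      have hs : √((p : ℝ) * q) = √(p : ℝ) * √(q : ℝ) := Real.sqrt_mul (by positivity) _
      have p1 : 0 < √(p : ℝ) := Real.sqrt_pos.2 (by linarith)
      have p2 : 0 < √(q : ℝ) := Real.sqrt_pos.2 (by linarith)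
      have s1 : √(p : ℝ) * √(p : ℝ) = p := Real.mul_self_sqrt (by linarith)
      have s2 : √(q : ℝ) * √(q : ℝ) = q := Real.mul_self_sqrt (by linarith)
      have e3 : 1 / ((p : ℝ) * q) * (C * √((p : ℝ) * q) * Real.log ((p : ℝ) * q)) =
          C * Real.log ((p : ℝ) * q) * (1 / √(p : ℝ) * (1 / √(q : ℝ))) := by
        have key : ∀ (a b L N : ℝ), 0 < a → 0 < b → N = (a * b) * (a * b) →
            1 / N * (C * (a * b) * L) = C * L * (1 / a * (1 / b)) := by
          intro a b L N ha hb hN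
          rw [hN]
          field_simp
        rw [hs]
        exact key _ _ _ _ p1 p2 (by linear_combination (-(q : ℝ)) * s1 - √(p : ℝ) * √(p : ℝ) * s2)
      rw [e3]
      have : C * Real.log ((p : ℝ) * q) ≤ 2 * C * Real.log z := by nlinarith
      exact mul_le_mul_of_nonneg_right this (by positivity)
  refine (Finset.sum_le_sum fun n1 hn1 => Finset.sum_le_sum fun n2 hn2 => hterm n1 hn1 n2 hn2).trans ?_
  simp only [Finset.sum_add_distrib]
  have hy0 : (0 : ℝ) < y := by
    have : 0 < y := by omega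
    exact_mod_cast this
  apply add_le_add
  · have h1 : ∀ p ∈ S, ∑ q ∈ S, (if p = q then (H : ℝ) * (((p : ℝ))⁻¹) ^ 2 else 0) =
        (H : ℝ) * (((p : ℝ))⁻¹) ^ 2 := by
      intro p hp
      rw [Finset.sum_ite_eq, if_pos hp]
    rw [Finset.sum_congr rfl h1, ← Finset.mul_sum, div_eq_mul_inv]
    apply mul_le_mul_of_nonneg_left _ (Nat.cast_nonneg H)
    have key : ∀ N : ℕ, y ≤ N → ∑ n ∈ Finset.Ioc y N, (((n : ℝ))⁻¹) ^ 2 ≤
        ((y : ℝ))⁻¹ - ((N : ℝ))⁻¹ := by
      intro N hN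
      induction N, hN using Nat.le_induction with
      | base => simp
      | succ N hN ih =>
        rw [Finset.sum_Ioc_succ_top (by omega)]
        have hN0 : (0 : ℝ) < N := by
          have : 0 < N := by omega
          exact_mod_cast this
        push_cast
        have h1 : (((N : ℝ) + 1)⁻¹) ^ 2 ≤ ((N : ℝ))⁻¹ - ((N : ℝ) + 1)⁻¹ := by
          have e2 : ((N : ℝ))⁻¹ - ((N : ℝ) + 1)⁻¹ = ((N : ℝ))⁻¹ * ((N : ℝ) + 1)⁻¹ := by
            field_simp
            ring
          rw [e2, pow_two]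
          apply mul_le_mul_of_nonneg_right _ (by positivity)
          exact inv_anti₀ hN0 (by linarith)
        linarith
    rcases Nat.lt_or_ge z y with hzy | hzy
    · have hemp : S = ∅ := by
        rw [hS, Finset.Ioc_eq_empty (by omega), Finset.filter_empty]
      rw [hemp, Finset.sum_empty]
      positivity
    · have h2 : ∑ p ∈ S, (((p : ℝ))⁻¹) ^ 2 ≤ ∑ n ∈ Finset.Ioc y z, (((n : ℝ))⁻¹) ^ 2 := by
        apply Finset.sum_le_sum_of_subset_of_nonneg
        · rw [hS]
          exact Finset.filter_subset _ _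
        · intro _ _ _
          positivity
      have h3 := key z hzy
      have h4 : 0 ≤ ((z : ℝ))⁻¹ := by positivity
      linarith
  · have hs1 : ∑ n ∈ S, 1 / √(n : ℝ) ≤ 2 * √(z : ℝ) := by
      refine le_trans ?_ (sqrt_sum z)
      apply Finset.sum_le_sum_of_subset_of_nonneg
      · intro n hn
        rw [Finset.mem_Ioc]
        have := hSm n hn
        omega
      · intro n _ _
        positivity
    have hs0 : 0 ≤ ∑ n ∈ S, 1 / √(n : ℝ) := Finset.sum_nonneg fun n _ => by positivity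
    have hlZ : 0 ≤ Real.log (z : ℝ) := Real.log_natCast_nonneg z
    have hz : √(z : ℝ) * √(z : ℝ) = z := Real.mul_self_sqrt (by positivity)
    calc ∑ n1 ∈ S, ∑ n2 ∈ S, 2 * C * Real.log z * (1 / √(n1 : ℝ) * (1 / √(n2 : ℝ)))
        = 2 * C * Real.log z * ((∑ n ∈ S, 1 / √(n : ℝ)) * ∑ n ∈ S, 1 / √(n : ℝ)) := by
          rw [Finset.sum_mul_sum, Finset.mul_sum]
          apply Finset.sum_congr rfl
          intro n1 _
          rw [Finset.mul_sum]
      _ ≤ 2 * C * Real.log z * ((2 * √(z : ℝ)) * (2 * √(z : ℝ))) := by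
          apply mul_le_mul_of_nonneg_left _ (by positivity)
          exact mul_le_mul hs1 hs1 hs0 (by positivity)
      _ = 8 * C * z * Real.log z := by
          linear_combination (8 * C * Real.log z) * hz

/-- few large short sums -/
theorem few_S {C : ℝ} (hC : PVC C) (w : ℕ → ℝ) (hw : ∀ p : ℕ, 1 ≤ p → |w p| ≤ 1 / (p : ℝ))
    (x H y z : ℕ) (hy : 2 ≤ y) :
    (((Ioc x (x + H)).filter (fun m => 1 < SS w y z m)).card : ℝ) ≤
      H / (y : ℝ) + 8 * C * z * Real.log z := by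
  refine le_trans ?_ (moment hC w hw x H y z hy)
  have h1 : (((Ioc x (x + H)).filter (fun m => 1 < SS w y z m)).card : ℝ) =
      ∑ m ∈ (Ioc x (x + H)).filter (fun m => 1 < SS w y z m), (1 : ℝ) := by simp
  rw [h1]
  refine le_trans ?_ (Finset.sum_le_sum_of_subset_of_nonneg
    (Finset.filter_subset (fun m : ℕ => 1 < SS w y z m) (Ioc x (x + H)))
    (fun m _ _ => sq_nonneg (SS w y z m)))
  apply Finset.sum_le_sum
  intro m hm
  rw [Finset.mem_filter] at hm
  nlinarith [hm.2]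

/-- the character of the discriminant at odd primes -/
theorem chi_dsc (d p : ℕ) (hp : p.Prime) (h2 : p ≠ 2) :
    chi (dsc d) p = jacobiSym (d : ℤ) p := by
  have hodd : Odd p := hp.odd_of_ne_two h2
  rw [KRh.chi_odd hodd]
  unfold dsc
  split_ifs with h
  · rfl
  · push_cast
    rw [jacobiSym.mul_left, jacobiSym.at_four hodd, one_mul]

/-- few large values of `L(1, χ)` in a short interval -/
theorem few_lone : ∃ (C : ℝ) (x0 : ℕ), 0 < C ∧ ∀ x H y z : ℕ, x0 ≤ x → H ≤ x → 3 ≤ y → y ≤ z →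
    z ≤ x →
    ({d : ℕ | x < d ∧ d ≤ x + H ∧ Squarefree d ∧ ∃ (K : Type) (_ : Field K) (_ : NumberField K),
      Module.finrank ℚ K = 2 ∧ (∃ t : K, t ^ 2 = (d : K)) ∧
      1 + 4 * Real.exp 25 * (1 + Real.log y) * (2 * Real.log x) / Real.log z <
        Lone (dsc d)}.ncard : ℝ) ≤
      C * (H / (y : ℝ) + z * Real.log z) := by
  classical
  obtain ⟨C, hC⟩ := exPVC
  have hC0 := hC.1
  obtain ⟨D0, hD0⟩ := lone_bound
  refine ⟨8 * C + 1, D0 + 8, by positivity, ?_⟩
  intro x H y z hx hHx hy hyz hzx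
  have hx8 : (8 : ℝ) ≤ x := by
    have : 8 ≤ x := by omega
    exact_mod_cast this
  have hx0 : (0 : ℝ) < x := by linarith
  have hlx : 0 < Real.log x := Real.log_pos (by linarith)
  have hlx2 : Real.log 8 ≤ Real.log x := Real.log_le_log (by norm_num) hx8
  obtain ⟨s, hs⟩ : ∃ s : ℝ, s = 1 + 1 / Real.log x := ⟨_, rfl⟩
  have hs1 : 1 < s := by
    rw [hs]
    have : 0 < 1 / Real.log x := by positivity
    linarith
  have hsx : (s - 1) * Real.log x = 1 := by
    rw [hs]
    field_simp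
    ring
  have hinv : 1 / (s - 1) = Real.log x := by
    rw [hs]
    field_simp
    ring
  have hw : ∀ p : ℕ, 1 ≤ p → |(fun p : ℕ => (p : ℝ) ^ (-s)) p| ≤ 1 / (p : ℝ) := by
    intro p hp
    have hp1 : (1 : ℝ) ≤ p := by exact_mod_cast hp
    simp only
    rw [abs_of_nonneg (Real.rpow_nonneg (by linarith) _), one_div, ← Real.rpow_neg_one]
    exact Real.rpow_le_rpow_of_exponent_le hp1 (by linarith)
  have hz3 : (3 : ℝ) ≤ z := by exact_mod_cast hy.trans hyz
  have hlz : 0 < Real.log z := Real.log_pos (by linarith)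
  have hlzx : Real.log z ≤ Real.log x := Real.log_le_log (by linarith) (by exact_mod_cast hzx)
  have hly : 0 ≤ Real.log y := Real.log_natCast_nonneg y
  have hfew := few_S hC (fun p : ℕ => (p : ℝ) ^ (-s)) hw x H y z (by omega)
  have hsub : {d : ℕ | x < d ∧ d ≤ x + H ∧ Squarefree d ∧ ∃ (K : Type) (_ : Field K) (_ : NumberField K),
      Module.finrank ℚ K = 2 ∧ (∃ t : K, t ^ 2 = (d : K)) ∧
      1 + 4 * Real.exp 25 * (1 + Real.log y) * (2 * Real.log x) / Real.log z <
        Lone (dsc d)} ⊆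
      (((Ioc x (x + H)).filter (fun m => 1 < SS (fun p : ℕ => (p : ℝ) ^ (-s)) y z m) : Finset ℕ) :
        Set ℕ) := by
    rintro d ⟨h1, h2, hsq, K, i1, i2, hK, hx', hL⟩
    rw [Finset.mem_coe, Finset.mem_filter, Finset.mem_Ioc]
    refine ⟨⟨h1, h2⟩, ?_⟩
    by_contra hS
    push Not at hS
    have hd1 : 1 < d := by omega
    have hDle : (dsc d : ℝ) ≤ 8 * x := by
      have h3 : dsc d ≤ 4 * d := Pool.Agent.U689.CN.dsc_le d
      have : dsc d ≤ 8 * x := by omega
      exact_mod_cast this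
    have hDge : (x : ℝ) ≤ dsc d := by
      have h3 := Pool.Agent.U689.CN.le_dsc d
      have : x ≤ dsc d := by omega
      exact_mod_cast this
    have hlD1 : Real.log (dsc d) ≤ 2 * Real.log x := by
      have := Real.log_le_log (by linarith) hDle
      rw [Real.log_mul (by norm_num) hx0.ne'] at this
      linarith
    have hlD2 : Real.log x ≤ Real.log (dsc d) := Real.log_le_log hx0 hDge
    have h5 := hD0 (dsc d) (by
      have h3 := Pool.Agent.U689.CN.le_dsc d
      omega) (Pool.Agent.U689.CN.isFund_dsc hd1 hsq)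
      (fun n hn => rr_nonneg hd1 hsq hK hx' n hn) s y z hs1 (by nlinarith) (by rw [hinv]; exact hlD2)
      hy hyz (by nlinarith) (by
        refine le_trans (le_of_eq ?_) hS
        unfold SS
        apply Finset.sum_congr rfl
        intro p hp
        rw [Finset.mem_filter, Finset.mem_Ioc] at hp
        rw [chi_dsc d p hp.2 (by omega)]
        ring)
    have h6 : 4 * Real.exp 25 * (1 + Real.log y) * Real.log (dsc d) / Real.log z ≤
        4 * Real.exp 25 * (1 + Real.log y) * (2 * Real.log x) / Real.log z := by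
      apply div_le_div_of_nonneg_right _ hlz.le
      exact mul_le_mul_of_nonneg_left hlD1 (by positivity)
    linarith
  have h1 := Set.ncard_le_ncard hsub (Finset.finite_toSet _)
  rw [Set.ncard_coe_finset] at h1
  have h2 : (({d : ℕ | x < d ∧ d ≤ x + H ∧ Squarefree d ∧ ∃ (K : Type) (_ : Field K) (_ : NumberField K),
      Module.finrank ℚ K = 2 ∧ (∃ t : K, t ^ 2 = (d : K)) ∧
      1 + 4 * Real.exp 25 * (1 + Real.log y) * (2 * Real.log x) / Real.log z <
        Lone (dsc d)}.ncard : ℕ) : ℝ) ≤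
      (((Ioc x (x + H)).filter (fun m => 1 < SS (fun p : ℕ => (p : ℝ) ^ (-s)) y z m)).card : ℝ) := by
    exact_mod_cast h1
  refine h2.trans (hfew.trans ?_)
  have h3 : 0 ≤ (H : ℝ) / (y : ℝ) := by positivity
  have h4 : 0 ≤ (z : ℝ) * Real.log z := by positivity
  nlinarith

end Pool.Agent.U787.VS
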