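import Pool.Agent.Q65.PL.B3
import Pool.Agent.Q210.PL.B2

/-!
# Very short intervals, part A: smooth divisors

A squarefree `d` with a large common divisor with a fixed `M` is divisible by a large prime factor of
`M` or by a smooth number of controlled size. No restriction on the number of prime factors of `d`.
-/

set_option autoImplicit false

namespace Pool.Agent.U787.VS

open Pool.Agent.Q276.PL

/-- the smooth squarefree numbers in `(z, z P₀]` -/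
noncomputable def GG (z P₀ : ℝ) : Finset ℕ :=
  open Classical in
  (Finset.Icc 1 ⌊z * P₀⌋₊).filter fun g => Squarefree g ∧ z < (g : ℝ) ∧
    ∀ p ∈ g.primeFactors, (p : ℝ) ≤ P₀

theorem mem_GG {z P₀ : ℝ} {g : ℕ} : g ∈ GG z P₀ ↔ (1 ≤ g ∧ g ≤ ⌊z * P₀⌋₊) ∧ Squarefree g ∧
    z < (g : ℝ) ∧ ∀ p ∈ g.primeFactors, (p : ℝ) ≤ P₀ := by
  unfold GG
  rw [Finset.mem_filter, Finset.mem_Icc]

theorem smooth_divisor {d M : ℤ} {z P₀ : ℝ} (hsq : Squarefree d) (hz : 1 ≤ z) (hg : z < (Int.gcd d M : ℝ))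
    (hno : ¬ ∃ p : ℕ, p.Prime ∧ P₀ < p ∧ (p : ℤ) ∣ M ∧ (p : ℤ) ∣ d) :
    ∃ g ∈ GG z P₀, (g : ℤ) ∣ d := by
  classical
  obtain ⟨g0, hg0⟩ : ∃ g : ℕ, g = Int.gcd d M := ⟨_, rfl⟩
  rw [← hg0] at hg
  have hgd : (g0 : ℤ) ∣ d := by
    rw [hg0]
    exact Int.gcd_dvd_left ..
  have hgM : (g0 : ℤ) ∣ M := by
    rw [hg0]
    exact Int.gcd_dvd_right ..
  have hg00 : g0 ≠ 0 := by
    rintro rfl
    rw [Nat.cast_zero] at hg
    linarith
  have hsq0 : Squarefree g0 := (Int.squarefree_natAbs.2 hsq).squarefree_of_dvd (Int.natCast_dvd.1 hgd)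
  obtain ⟨g, hgS, hmin⟩ := Finset.exists_min_image (g0.divisors.filter fun g : ℕ => z < (g : ℝ)) id
    ⟨g0, by rw [Finset.mem_filter, Nat.mem_divisors]; exact ⟨⟨dvd_rfl, hg00⟩, hg⟩⟩
  rw [Finset.mem_filter, Nat.mem_divisors] at hgS
  obtain ⟨⟨hgg0, -⟩, hzg⟩ := hgS
  have hg1 : g ≠ 1 := by
    rintro rfl
    rw [Nat.cast_one] at hzg
    linarith
  have hgpos : 0 < g := Nat.pos_of_dvd_of_pos hgg0 (Nat.pos_of_ne_zero hg00)
  have hpr : ∀ p : ℕ, p.Prime → p ∣ g → (p : ℝ) ≤ P₀ := by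
    intro p hp hpg
    by_contra hlt
    have h1 : (p : ℤ) ∣ (g0 : ℤ) := Int.natCast_dvd_natCast.2 (hpg.trans hgg0)
    exact hno ⟨p, hp, not_le.1 hlt, h1.trans hgM, h1.trans hgd⟩
  obtain ⟨p, hp, hpg⟩ := Nat.exists_prime_and_dvd hg1
  obtain ⟨k, rfl⟩ := hpg
  have hk0 : 0 < k := Nat.pos_of_mul_pos_left hgpos
  have hkz : (k : ℝ) ≤ z := by
    by_contra hlt
    have h1 := hmin k (by
      rw [Finset.mem_filter, Nat.mem_divisors]
      exact ⟨⟨(Dvd.intro_left p rfl).trans hgg0, hg00⟩, not_le.1 hlt⟩)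
    simp only [id] at h1
    have := hp.two_le
    nlinarith
  have hpP := hpr p hp (Dvd.intro k rfl)
  refine ⟨p * k, ?_, (Int.natCast_dvd_natCast.2 hgg0).trans hgd⟩
  rw [mem_GG]
  refine ⟨⟨hgpos, Nat.le_floor ?_⟩, hsq0.squarefree_of_dvd hgg0, hzg, fun q hq => ?_⟩
  · push_cast
    rw [mul_comm]
    exact mul_le_mul hkz hpP (Nat.cast_nonneg p) (by linarith)
  · exact hpr q (Nat.prime_of_mem_primeFactors hq) (Nat.dvd_of_mem_primeFactors hq)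

theorem rankin {z P₀ : ℝ} (hz : 1 ≤ z) (hP : Real.exp 1 ≤ P₀) :
    ∑ g ∈ GG z P₀, 1 / (g : ℝ) ≤
      Real.exp (3 * (1 + Real.log P₀) - Real.log z / Real.log P₀) := by
  classical
  have hz0 : 0 < z := by linarith
  have hP0 : 0 < P₀ := (Real.exp_pos 1).trans_le hP
  have hlP : 1 ≤ Real.log P₀ := by
    rw [Real.le_log_iff_exp_le hP0]
    exact hP
  obtain ⟨η, hη⟩ : ∃ η : ℝ, η = 1 / Real.log P₀ := ⟨_, rfl⟩
  have hη0 : 0 < η := by rw [hη]; positivity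
  have hη1 : η * Real.log P₀ = 1 := by rw [hη]; field_simp
  obtain ⟨Ps, hPs⟩ : ∃ Ps : Finset ℕ, Ps = (Finset.Icc 1 ⌊P₀⌋₊).filter Nat.Prime := ⟨_, rfl⟩
  -- pointwise
  have h1 : ∀ g ∈ GG z P₀, 1 / (g : ℝ) ≤ z ^ (-η) * ∏ p ∈ g.primeFactors, (p : ℝ) ^ (η - 1) := by
    intro g hg
    rw [mem_GG] at hg
    obtain ⟨⟨hg1, -⟩, hsq, hzg, -⟩ := hg
    have hg0 : (0 : ℝ) < g := by exact_mod_cast hg1
    have e1 : ∏ p ∈ g.primeFactors, (p : ℝ) ^ (η - 1) = (g : ℝ) ^ (η - 1) := by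
      rw [Real.finsetProd_rpow _ _ (fun p _ => Nat.cast_nonneg p)]
      congr 1
      have h0 := congrArg (Nat.cast (R := ℝ)) (Nat.prod_primeFactors_of_squarefree hsq)
      rw [Nat.cast_prod] at h0
      exact h0
    rw [e1]
    have e2 : 1 / (g : ℝ) = (g : ℝ) ^ (-η) * (g : ℝ) ^ (η - 1) := by
      rw [← Real.rpow_add hg0, show -η + (η - 1) = (-1 : ℝ) by ring, Real.rpow_neg_one, one_div]
    rw [e2]
    apply mul_le_mul_of_nonneg_right _ (Real.rpow_nonneg hg0.le _)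
    exact Real.rpow_le_rpow_of_nonpos hz0 hzg.le (by linarith)
  refine (Finset.sum_le_sum h1).trans ?_
  rw [← Finset.mul_sum]
  -- sum over sets of primes
  have h2 : ∑ g ∈ GG z P₀, ∏ p ∈ g.primeFactors, (p : ℝ) ^ (η - 1) ≤
      ∑ S ∈ Ps.powerset, ∏ p ∈ S, (p : ℝ) ^ (η - 1) := by
    have hinj : Set.InjOn (fun g : ℕ => g.primeFactors) (GG z P₀ : Set ℕ) := by
      intro a ha b hb hab
      rw [Finset.mem_coe, mem_GG] at ha hb
      rw [← Nat.prod_primeFactors_of_squarefree ha.2.1, ← Nat.prod_primeFactors_of_squarefree hb.2.1]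
      simp only at hab
      rw [hab]
    have e3 : ∑ g ∈ GG z P₀, ∏ p ∈ g.primeFactors, (p : ℝ) ^ (η - 1) =
        ∑ S ∈ (GG z P₀).image (fun g : ℕ => g.primeFactors), ∏ p ∈ S, (p : ℝ) ^ (η - 1) := by
      rw [Finset.sum_image (fun x hx y hy h => hinj hx hy h)]
    rw [e3]
    apply Finset.sum_le_sum_of_subset_of_nonneg
    · intro S hS
      rw [Finset.mem_image] at hS
      obtain ⟨g, hg, rfl⟩ := hS
      rw [mem_GG] at hg
      rw [Finset.mem_powerset]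
      intro p hp
      have hpp := Nat.prime_of_mem_primeFactors hp
      rw [hPs, Finset.mem_filter, Finset.mem_Icc]
      exact ⟨⟨hpp.one_lt.le, Nat.le_floor (hg.2.2.2 p hp)⟩, hpp⟩
    · intro S _ _
      exact Finset.prod_nonneg fun p _ => Real.rpow_nonneg (Nat.cast_nonneg p) _
  have h3 : ∑ S ∈ Ps.powerset, ∏ p ∈ S, (p : ℝ) ^ (η - 1) = ∏ p ∈ Ps, (1 + (p : ℝ) ^ (η - 1)) := by
    rw [Finset.prod_one_add]
  have h4 : ∏ p ∈ Ps, (1 + (p : ℝ) ^ (η - 1)) ≤ Real.exp (3 * (1 + Real.log P₀)) := by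
    have h5 : ∏ p ∈ Ps, (1 + (p : ℝ) ^ (η - 1)) ≤ Real.exp (∑ p ∈ Ps, (p : ℝ) ^ (η - 1)) := by
      rw [Real.exp_sum]
      apply Finset.prod_le_prod
      · intro p _
        have := Real.rpow_nonneg (Nat.cast_nonneg (α := ℝ) p) (η - 1)
        linarith
      · intro p _
        rw [add_comm]
        exact Real.add_one_le_exp _
    refine h5.trans (Real.exp_le_exp.2 ?_)
    have h6 : ∀ p ∈ Ps, (p : ℝ) ^ (η - 1) ≤ Real.exp 1 * ((p : ℝ))⁻¹ := by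
      intro p hp
      rw [hPs, Finset.mem_filter, Finset.mem_Icc] at hp
      have hp0 : (0 : ℝ) < p := by exact_mod_cast hp.1.1
      have hpP : (p : ℝ) ≤ P₀ := (Nat.le_floor_iff hP0.le).1 hp.1.2
      rw [show η - 1 = η + (-1 : ℝ) by ring, Real.rpow_add hp0, Real.rpow_neg_one]
      apply mul_le_mul_of_nonneg_right _ (by positivity)
      calc (p : ℝ) ^ η ≤ P₀ ^ η := Real.rpow_le_rpow hp0.le hpP hη0.le
        _ = Real.exp 1 := by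
            rw [Real.rpow_def_of_pos hP0, mul_comm, hη1]
    have h7 : ∑ p ∈ Ps, ((p : ℝ))⁻¹ ≤ 1 + Real.log P₀ := by
      have h8 : ∑ p ∈ Ps, ((p : ℝ))⁻¹ ≤ ∑ n ∈ Finset.Icc 1 ⌊P₀⌋₊, ((n : ℝ))⁻¹ := by
        apply Finset.sum_le_sum_of_subset_of_nonneg
        · rw [hPs]
          exact Finset.filter_subset _ _
        · intro n _ _
          positivity
      have h9 := harmonic_le_one_add_log ⌊P₀⌋₊
      rw [harmonic_eq_sum_Icc] at h9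
      push_cast at h9
      have h10 : Real.log (⌊P₀⌋₊ : ℝ) ≤ Real.log P₀ := by
        have hfl : (1 : ℝ) ≤ (⌊P₀⌋₊ : ℝ) := by
          have : 1 ≤ ⌊P₀⌋₊ := Nat.le_floor (by
            have := Real.add_one_le_exp (1 : ℝ)
            push_cast
            linarith)
          exact_mod_cast this
        exact Real.log_le_log (by linarith) (Nat.floor_le hP0.le)
      linarith
    calc ∑ p ∈ Ps, (p : ℝ) ^ (η - 1) ≤ ∑ p ∈ Ps, Real.exp 1 * ((p : ℝ))⁻¹ := Finset.sum_le_sum h6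
      _ = Real.exp 1 * ∑ p ∈ Ps, ((p : ℝ))⁻¹ := by rw [Finset.mul_sum]
      _ ≤ 3 * (1 + Real.log P₀) := by
          have he := Real.exp_one_lt_d9
          apply mul_le_mul (by linarith) h7 _ (by norm_num)
          exact Finset.sum_nonneg fun p _ => by positivity
  have h11 : z ^ (-η) = Real.exp (-(Real.log z / Real.log P₀)) := by
    rw [Real.rpow_def_of_pos hz0, hη]
    congr 1
    ring
  calc z ^ (-η) * ∑ g ∈ GG z P₀, ∏ p ∈ g.primeFactors, (p : ℝ) ^ (η - 1)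
      ≤ z ^ (-η) * Real.exp (3 * (1 + Real.log P₀)) :=
        mul_le_mul_of_nonneg_left ((h2.trans h3.le).trans h4) (Real.rpow_nonneg hz0.le _)
    _ = _ := by
        rw [h11, ← Real.exp_add]
        congr 1
        ring

/-- integers of an interval with a divisor in `GG z P₀` -/
theorem count {a L z P₀ : ℝ} (hL : 0 ≤ L) (hz : 1 ≤ z) (hP : Real.exp 1 ≤ P₀) :
    {d : ℤ | a ≤ d ∧ (d : ℝ) ≤ a + L ∧ ∃ g ∈ GG z P₀, (g : ℤ) ∣ d}.Finite ∧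
    ({d : ℤ | a ≤ d ∧ (d : ℝ) ≤ a + L ∧ ∃ g ∈ GG z P₀, (g : ℤ) ∣ d}.ncard : ℝ) ≤
      L * Real.exp (3 * (1 + Real.log P₀) - Real.log z / Real.log P₀) + z * P₀ := by
  classical
  have hP0 : 0 < P₀ := (Real.exp_pos 1).trans_le hP
  have hfin : {d : ℤ | a ≤ d ∧ (d : ℝ) ≤ a + L ∧ ∃ g ∈ GG z P₀, (g : ℤ) ∣ d}.Finite := by
    refine (Pool.Agent.Q65.PL.finite_int a (a + L)).subset ?_
    rintro d ⟨h3, h4, _⟩
    exact ⟨h3, h4⟩
  refine ⟨hfin, ?_⟩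
  have hmem : ∀ g ∈ GG z P₀, 0 < g := fun g hg => (mem_GG.1 hg).1.1
  have hF : ∀ g : ℕ, {d : ℤ | a ≤ d ∧ (d : ℝ) ≤ a + L ∧ (g : ℤ) ∣ d}.Finite := by
    intro g
    refine (Pool.Agent.Q65.PL.finite_int a (a + L)).subset ?_
    rintro d ⟨h3, h4, _⟩
    exact ⟨h3, h4⟩
  have hsub : {d : ℤ | a ≤ d ∧ (d : ℝ) ≤ a + L ∧ ∃ g ∈ GG z P₀, (g : ℤ) ∣ d} ⊆
      (((GG z P₀).biUnion fun g => (hF g).toFinset : Finset ℤ) : Set ℤ) := by
    rintro d ⟨h1, h2, g, hg, hgd⟩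
    rw [Finset.mem_coe, Finset.mem_biUnion]
    exact ⟨g, hg, by rw [Set.Finite.mem_toFinset]; exact ⟨h1, h2, hgd⟩⟩
  have h1 := Set.ncard_le_ncard hsub (Finset.finite_toSet _)
  rw [Set.ncard_coe_finset] at h1
  have h2 := h1.trans Finset.card_biUnion_le
  have h3 : (({d : ℤ | a ≤ d ∧ (d : ℝ) ≤ a + L ∧ ∃ g ∈ GG z P₀, (g : ℤ) ∣ d}.ncard : ℕ) : ℝ) ≤
      ∑ g ∈ GG z P₀, ((hF g).toFinset.card : ℝ) := by exact_mod_cast h2
  refine h3.trans ?_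
  have h4 : ∀ g ∈ GG z P₀, ((hF g).toFinset.card : ℝ) ≤ L * (1 / (g : ℝ)) + 1 := by
    intro g hg
    have := (Pool.Agent.Q210.PL.B2.mult a L hL g (hmem g hg)).2
    rw [← Set.ncard_eq_toFinset_card _ (hF g)]
    rw [mul_one_div]
    exact this
  refine (Finset.sum_le_sum h4).trans ?_
  rw [Finset.sum_add_distrib, ← Finset.mul_sum, Finset.sum_const, nsmul_eq_mul, mul_one]
  apply add_le_add
  · exact mul_le_mul_of_nonneg_left (rankin hz hP) hL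
  · have h5 : (GG z P₀).card ≤ ⌊z * P₀⌋₊ := by
      unfold GG
      refine (Finset.card_filter_le _ _).trans ?_
      rw [Nat.card_Icc]
      omega
    calc ((GG z P₀).card : ℝ) ≤ (⌊z * P₀⌋₊ : ℝ) := by exact_mod_cast h5
      _ ≤ z * P₀ := Nat.floor_le (by positivity)

/-- an interval and a dyadic range, all squarefree `d` -/
theorem b3s (hPIG : StmtPIG) : ∃ C : ℝ, 1 ≤ C ∧ ∀ (D V σ z P₀ a : ℝ) (m : ℕ), C ≤ D →
    1 ≤ m → 0 ≤ σ → 2 * (2 * σ + 1) ^ 2 ≤ m → C * m ≤ Real.log D → 1 ≤ V → V ≤ D ^ σ →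
    1 ≤ z → z ≤ D → Real.exp 1 ≤ P₀ →
    ({d : ℤ | a ≤ d ∧ (d : ℝ) ≤ a + D ^ (1 / (8 * (m : ℝ))) ∧ D ≤ d ∧ (d : ℝ) ≤ 2 * D ∧
      Squarefree d ∧
      ∃ x y : ℤ, Fund d x y ∧ V ≤ y ∧ (y : ℝ) < 2 * V}.ncard : ℝ) ≤
      C * z * D ^ (1 / (16 * (m : ℝ))) * ((m : ℝ) ^ 2 * Real.log D) ^ 3 +
        C * (m : ℝ) ^ 2 * Real.log D * (D ^ (1 / (8 * (m : ℝ))) / P₀ + 1) +
      (D ^ (1 / (8 * (m : ℝ))) * Real.exp (3 * (1 + Real.log P₀) - Real.log z / Real.log P₀) +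
        z * P₀) := by
  obtain ⟨C, hC1, hC⟩ := hPIG
  refine ⟨2 * C, by linarith, ?_⟩
  intro D V σ z P₀ a m hD hm hσ hm2 hCm hV hVD hz hzD hP
  have hD1 : 1 ≤ D := by linarith
  have hP1 : 1 ≤ P₀ := (Real.one_le_exp (by norm_num)).trans hP
  have hm0 : (1 : ℝ) ≤ m := by exact_mod_cast hm
  obtain ⟨L, hL⟩ : ∃ L : ℝ, L = D ^ (1 / (8 * (m : ℝ))) := ⟨_, rfl⟩
  have hL0 : 0 ≤ L := by
    rw [hL]
    exact Real.rpow_nonneg (by linarith) _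
  rw [← hL]
  obtain ⟨S, hS⟩ : ∃ S : Set ℤ, S = {d : ℤ | a ≤ d ∧ (d : ℝ) ≤ a + L ∧ D ≤ d ∧ (d : ℝ) ≤ 2 * D ∧
    Squarefree d ∧
    ∃ x y : ℤ, Fund d x y ∧ V ≤ y ∧ (y : ℝ) < 2 * V} := ⟨_, rfl⟩
  rw [← hS]
  have hSf : S.Finite := by
    refine (Pool.Agent.Q65.PL.finite_int D (2 * D)).subset ?_
    rw [hS]
    rintro d ⟨_, _, h3, h4, _⟩
    exact ⟨h3, h4⟩
  obtain ⟨M, hM0, hM, E, hE, hEc, hEg⟩ := hC D V σ z m hSf.toFinset (by linarith) hm hσ hm2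
    (by nlinarith) hV hVD hz hzD (by
      intro d hd
      rw [Set.Finite.mem_toFinset, hS] at hd
      exact ⟨hd.2.2.1, hd.2.2.2.1, hd.2.2.2.2.1, hd.2.2.2.2.2⟩) (by
      intro d hd d' hd'
      rw [Set.Finite.mem_toFinset, hS] at hd hd'
      rw [← hL, abs_le]
      constructor
      · linarith [hd.1, hd'.2.1]
      · linarith [hd'.1, hd.2.1])
  obtain ⟨T, hT⟩ : ∃ T : Set ℤ, T = {d : ℤ | a ≤ d ∧ (d : ℝ) ≤ a + L ∧ ∃ p : ℕ, p.Prime ∧ P₀ < p ∧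
    (p : ℤ) ∣ M ∧ (p : ℤ) ∣ d} := ⟨_, rfl⟩
  obtain ⟨U, hU⟩ : ∃ U : Set ℤ, U = {d : ℤ | a ≤ d ∧ (d : ℝ) ≤ a + L ∧ ∃ g ∈ GG z P₀,
    (g : ℤ) ∣ d} := ⟨_, rfl⟩
  have hTf : T.Finite := by
    refine (Pool.Agent.Q65.PL.finite_int a (a + L)).subset ?_
    rw [hT]
    rintro d ⟨h3, h4, _⟩
    exact ⟨h3, h4⟩
  have hT2 : (T.ncard : ℝ) ≤ Real.log |(M : ℝ)| / Real.log 2 * (L / P₀ + 1) := by
    rw [hT]
    exact Pool.Agent.Q210.PL.b2 M a L P₀ hM0 hL0 hP1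
  obtain ⟨hUf, hU2⟩ := count (a := a) hL0 hz hP
  rw [← hU] at hUf hU2
  have hsub : S ⊆ ((E : Set ℤ) ∪ T) ∪ U := by
    intro d hd
    by_cases hdE : d ∈ E
    · exact Or.inl (Or.inl hdE)
    · have hg := hEg d (Finset.mem_sdiff.2 ⟨hSf.mem_toFinset.2 hd, hdE⟩)
      rw [hS] at hd
      obtain ⟨h1, h2, h3, _, h5, _⟩ := hd
      by_cases hb : ∃ p : ℕ, p.Prime ∧ P₀ < p ∧ (p : ℤ) ∣ M ∧ (p : ℤ) ∣ d
      · refine Or.inl (Or.inr ?_)
        rw [hT]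
        exact ⟨h1, h2, hb⟩
      · refine Or.inr ?_
        rw [hU]
        exact ⟨h1, h2, smooth_divisor h5 hz hg hb⟩
  have h1 : S.ncard ≤ E.card + T.ncard + U.ncard := by
    refine (Set.ncard_le_ncard hsub ((E.finite_toSet.union hTf).union hUf)).trans ?_
    refine (Set.ncard_union_le _ _).trans ?_
    refine Nat.add_le_add_right ((Set.ncard_union_le _ _).trans ?_) _
    rw [Set.ncard_coe_finset]
  have h2 : (S.ncard : ℝ) ≤ (E.card : ℝ) + (T.ncard : ℝ) + (U.ncard : ℝ) := by exact_mod_cast h1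
  have hlogD : 0 ≤ Real.log D := Real.log_nonneg hD1
  have hX : 0 ≤ z * D ^ (1 / (16 * (m : ℝ))) * ((m : ℝ) ^ 2 * Real.log D) ^ 3 := by
    have : 0 ≤ D ^ (1 / (16 * (m : ℝ))) := Real.rpow_nonneg (by linarith) _
    positivity
  have h3 : C * z * D ^ (1 / (16 * (m : ℝ))) * ((m : ℝ) ^ 2 * Real.log D) ^ 3 ≤
      2 * C * z * D ^ (1 / (16 * (m : ℝ))) * ((m : ℝ) ^ 2 * Real.log D) ^ 3 := by
    have := mul_nonneg (by linarith : (0 : ℝ) ≤ C) hX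
    nlinarith
  have hlog2 : (1 : ℝ) / 2 ≤ Real.log 2 := by
    have := Real.log_two_gt_d9
    linarith
  have h4 : Real.log |(M : ℝ)| / Real.log 2 ≤ 2 * C * (m : ℝ) ^ 2 * Real.log D := by
    rw [div_le_iff₀ (by linarith)]
    have h5 : 0 ≤ C * (m : ℝ) ^ 2 * Real.log D := by positivity
    nlinarith
  have h6 : 0 ≤ L / P₀ + 1 := by positivity
  have h7 := mul_le_mul_of_nonneg_right h4 h6
  linarith

end Pool.Agent.U787.VS
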