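import Pool.Agent.U689.CN.L4

/-!
# Very short intervals, part C: Euler products
-/

set_option autoImplicit false

namespace Pool.Agent.U787.VS

open Finset Filter Pool.Agent.H38R2.CG Nat

/-- `n ^ (-s)` -/
noncomputable def gs (s : ℝ) (hs : 0 < s) : ℕ →*₀ ℝ where
  toFun n := (n : ℝ) ^ (-s)
  map_zero' := by
    rw [Nat.cast_zero, Real.zero_rpow (by linarith)]
  map_one' := by simp
  map_mul' a b := by
    push_cast
    rw [Real.mul_rpow (Nat.cast_nonneg a) (Nat.cast_nonneg b)]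

theorem gs_apply (s : ℝ) (hs : 0 < s) (n : ℕ) : gs s hs n = (n : ℝ) ^ (-s) := rfl

/-- `χ_D(n) n ^ (-s)` -/
noncomputable def fs (D : ℕ) (s : ℝ) (hs : 0 < s) : ℕ →*₀ ℝ where
  toFun n := (chi D n : ℝ) * (n : ℝ) ^ (-s)
  map_zero' := by
    rw [Nat.cast_zero, Real.zero_rpow (by linarith), mul_zero]
  map_one' := by
    rw [N2h.chi_one]
    simp
  map_mul' a b := by
    rcases Nat.eq_zero_or_pos a with rfl | ha
    · rw [Nat.zero_mul, Nat.cast_zero, Real.zero_rpow (by linarith)]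
      ring
    rcases Nat.eq_zero_or_pos b with rfl | hb
    · rw [Nat.mul_zero, Nat.cast_zero, Real.zero_rpow (by linarith)]
      ring
    rw [N2h.chi_mul D (by omega) (by omega)]
    push_cast
    rw [Real.mul_rpow (Nat.cast_nonneg a) (Nat.cast_nonneg b)]
    ring

theorem fs_apply (D : ℕ) (s : ℝ) (hs : 0 < s) (n : ℕ) :
    fs D s hs n = (chi D n : ℝ) * (n : ℝ) ^ (-s) := rfl

theorem gs_nonneg (s : ℝ) (hs : 0 < s) (n : ℕ) : 0 ≤ gs s hs n :=
  Real.rpow_nonneg (Nat.cast_nonneg n) _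

theorem fs_abs (D : ℕ) (s : ℝ) (hs : 0 < s) (n : ℕ) : |fs D s hs n| ≤ gs s hs n := by
  rw [fs_apply, gs_apply, abs_mul]
  have h1 := Pool.Agent.U689.CN.chi_abs (D : ℤ) n
  have h2 : |(n : ℝ) ^ (-s)| = (n : ℝ) ^ (-s) := abs_of_nonneg (Real.rpow_nonneg (Nat.cast_nonneg n) _)
  rw [h2]
  have h3 : 0 ≤ (n : ℝ) ^ (-s) := Real.rpow_nonneg (Nat.cast_nonneg n) _
  nlinarith

theorem gs_summable {s : ℝ} (hs : 1 < s) : Summable (gs s (by linarith)) :=
  Real.summable_nat_rpow.2 (by linarith)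

theorem gs_summable_norm {s : ℝ} (hs : 1 < s) : Summable (fun n => ‖gs s (by linarith) n‖) :=
  (gs_summable hs).norm

theorem fs_summable_norm (D : ℕ) {s : ℝ} (hs : 1 < s) :
    Summable (fun n => ‖fs D s (by linarith) n‖) :=
  Summable.of_nonneg_of_le (fun _ => norm_nonneg _) (fun n => fs_abs D s (by linarith) n)
    (gs_summable hs)

/-- telescoping bound -/
theorem zstep (n : ℕ) (hn : 1 ≤ n) (s : ℝ) (hs : 1 < s) :
    (s - 1) * ((n : ℝ) + 1) ^ (-s) ≤ (n : ℝ) ^ (1 - s) - ((n : ℝ) + 1) ^ (1 - s) := by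
  have hn0 : (0 : ℝ) < n := by exact_mod_cast hn
  have hn1 : (0 : ℝ) < (n : ℝ) + 1 := by linarith
  have h1 : (n : ℝ) ^ (1 - s) = ((n : ℝ) + 1) ^ (1 - s) * ((n : ℝ) / (n + 1)) ^ (1 - s) := by
    rw [← Real.mul_rpow hn1.le (by positivity)]
    congr 1
    field_simp
  have h2 : 1 + (s - 1) / ((n : ℝ) + 1) ≤ ((n : ℝ) / (n + 1)) ^ (1 - s) := by
    rw [Real.rpow_def_of_pos (by positivity)]
    have h3 : Real.log ((n : ℝ) / (n + 1)) ≤ (n : ℝ) / (n + 1) - 1 :=
      Real.log_le_sub_one_of_pos (by positivity)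
    have h4 : (n : ℝ) / (n + 1) - 1 = -(1 / ((n : ℝ) + 1)) := by
      field_simp
      ring
    rw [h4] at h3
    have h5 := Real.add_one_le_exp (Real.log ((n : ℝ) / (n + 1)) * (1 - s))
    have h6 : (s - 1) / ((n : ℝ) + 1) = (1 / ((n : ℝ) + 1)) * (s - 1) := by ring
    rw [h6]
    nlinarith
  have h7 : ((n : ℝ) + 1) ^ (-s) = ((n : ℝ) + 1) ^ (1 - s) / ((n : ℝ) + 1) := by
    rw [show -s = (1 - s) - 1 by ring, Real.rpow_sub_one hn1.ne']
  have h8 : 0 < ((n : ℝ) + 1) ^ (1 - s) := Real.rpow_pos_of_pos hn1 _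
  rw [h1, h7]
  have h9 := mul_le_mul_of_nonneg_left h2 h8.le
  have h10 : ((n : ℝ) + 1) ^ (1 - s) * (1 + (s - 1) / ((n : ℝ) + 1)) =
      ((n : ℝ) + 1) ^ (1 - s) + (s - 1) * (((n : ℝ) + 1) ^ (1 - s) / ((n : ℝ) + 1)) := by
    ring
  linarith

theorem zpart (s : ℝ) (hs : 1 < s) (N : ℕ) (hN : 1 ≤ N) :
    ∑ n ∈ Finset.Icc 1 N, (n : ℝ) ^ (-s) ≤ 1 + (1 - (N : ℝ) ^ (1 - s)) / (s - 1) := by
  induction N, hN using Nat.le_induction with
  | base => simp
  | succ N hN ih =>
    have e : Finset.Icc 1 (N + 1) = insert (N + 1) (Finset.Icc 1 N) := by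
      ext x
      simp only [Finset.mem_Icc, Finset.mem_insert]
      omega
    rw [e, Finset.sum_insert (by simp)]
    have h1 := zstep N hN s hs
    have h2 : 0 < s - 1 := by linarith
    push_cast
    have h3 : ((N : ℝ) + 1) ^ (-s) ≤ ((N : ℝ) ^ (1 - s) - ((N : ℝ) + 1) ^ (1 - s)) / (s - 1) := by
      rw [le_div_iff₀ h2]
      linarith
    have h4 : 1 + (1 - ((N : ℝ) + 1) ^ (1 - s)) / (s - 1) =
        1 + (1 - (N : ℝ) ^ (1 - s)) / (s - 1) +
          ((N : ℝ) ^ (1 - s) - ((N : ℝ) + 1) ^ (1 - s)) / (s - 1) := by ring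
    rw [h4]
    linarith

theorem zeta_le {s : ℝ} (hs : 1 < s) : ∑' n : ℕ, gs s (by linarith) n ≤ 1 + 1 / (s - 1) := by
  apply Real.tsum_le_of_sum_range_le (fun n => gs_nonneg s (by linarith) n)
  intro N
  rcases Nat.lt_or_ge N 2 with h | h
  · have h0 : ∑ n ∈ Finset.range N, gs s (by linarith) n = 0 := by
      interval_cases N
      · simp
      · simp
    rw [h0]
    have : 0 < s - 1 := by linarith
    positivity
  · have e : ∑ n ∈ Finset.range N, gs s (by linarith) n =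
        ∑ n ∈ Finset.Icc 1 (N - 1), (n : ℝ) ^ (-s) := by
      have e1 : Finset.range N = insert 0 (Finset.Icc 1 (N - 1)) := by
        ext x
        simp only [Finset.mem_range, Finset.mem_insert, Finset.mem_Icc]
        omega
      rw [e1, Finset.sum_insert (by simp)]
      rw [map_zero, zero_add]
      rfl
    rw [e]
    refine (zpart s hs (N - 1) (by omega)).trans ?_
    have h2 : 0 < s - 1 := by linarith
    have h3 : 0 ≤ ((N - 1 : ℕ) : ℝ) ^ (1 - s) := Real.rpow_nonneg (Nat.cast_nonneg _) _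
    have h4 : (1 - ((N - 1 : ℕ) : ℝ) ^ (1 - s)) / (s - 1) ≤ 1 / (s - 1) :=
      div_le_div_of_nonneg_right (by linarith) h2.le
    linarith

/-- finite Euler product -/
theorem fin_prod {s : ℝ} (hs : 1 < s) (N : ℕ) :
    ∏ p ∈ N.primesBelow, (1 - (p : ℝ) ^ (-s))⁻¹ =
      ∑' n, (N.smoothNumbers : Set ℕ).indicator (gs s (by linarith)) n := by
  have h := EulerProduct.prod_primesBelow_geometric_eq_tsum_smoothNumbers
    (f := ((gs s (by linarith) : ℕ →*₀ ℝ) : ℕ →* ℝ)) (gs_summable hs) N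
  rw [← _root_.tsum_subtype]
  exact h

theorem prod_ge {s : ℝ} (hs : 1 < s) (z : ℕ) (hz : 1 ≤ z) (h : (s - 1) * Real.log z ≤ 1) :
    Real.exp (-1) * Real.log z ≤ ∏ p ∈ (z + 1).primesBelow, (1 - (p : ℝ) ^ (-s))⁻¹ := by
  rw [fin_prod hs]
  have hz0 : (0 : ℝ) < z := by exact_mod_cast hz
  have h1 : ∑ n ∈ Finset.Icc 1 z, ((z + 1).smoothNumbers : Set ℕ).indicator
      (gs s (by linarith)) n ≤
      ∑' n, ((z + 1).smoothNumbers : Set ℕ).indicator (gs s (by linarith)) n := by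
    apply Summable.sum_le_tsum
    · intro n _
      exact Set.indicator_nonneg (fun m _ => gs_nonneg s (by linarith) m) n
    · exact (gs_summable hs).indicator _
  refine le_trans ?_ h1
  have h2 : ∀ n ∈ Finset.Icc 1 z, Real.exp (-1) * ((n : ℝ))⁻¹ ≤
      ((z + 1).smoothNumbers : Set ℕ).indicator (gs s (by linarith)) n := by
    intro n hn
    rw [Finset.mem_Icc] at hn
    have hn0 : (0 : ℝ) < n := by exact_mod_cast hn.1
    have hnz : (n : ℝ) ≤ z := by exact_mod_cast hn.2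
    rw [Set.indicator_of_mem (Nat.mem_smoothNumbers_of_lt (by omega) (by omega)), gs_apply,
      show -s = -(s - 1) + (-1 : ℝ) by ring, Real.rpow_add hn0, Real.rpow_neg_one]
    apply mul_le_mul_of_nonneg_right _ (by positivity)
    rw [Real.rpow_def_of_pos hn0]
    apply Real.exp_le_exp.2
    have h3 : Real.log n ≤ Real.log z := Real.log_le_log hn0 hnz
    nlinarith
  refine le_trans ?_ (Finset.sum_le_sum h2)
  rw [← Finset.mul_sum]
  apply mul_le_mul_of_nonneg_left _ (Real.exp_pos _).le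
  have h5 := log_add_one_le_harmonic z
  rw [harmonic_eq_sum_Icc] at h5
  push_cast at h5
  refine le_trans ?_ h5
  exact Real.log_le_log hz0 (by linarith)

theorem exp_le_inv {u : ℝ} (hu : u < 1) : Real.exp u ≤ (1 - u)⁻¹ := by
  have h := Real.add_one_le_exp (-u)
  rw [Real.exp_neg] at h
  have h1 : 0 < 1 - u := by linarith
  rw [le_inv_comm₀ (Real.exp_pos u) h1]
  linarith

theorem inv_le_exp {t : ℝ} (ht0 : 0 ≤ t) (ht : t ≤ 1 / 2) : (1 - t)⁻¹ ≤ Real.exp (2 * t) := by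
  have h1 : 0 < 1 - t := by linarith
  rw [inv_le_iff_one_le_mul₀ h1]
  have h2 := Real.add_one_le_exp (2 * t)
  have h3 := Real.exp_pos (2 * t)
  nlinarith

/-- the upper bound in the first theorem of Mertens -/
theorem mertens1 (y : ℕ) (hy : 1 ≤ y) :
    ∑ p ∈ (y + 1).primesBelow, Real.log p / p ≤ Real.log y + Real.log 4 := by
  have hy0 : (0 : ℝ) < y := by exact_mod_cast hy
  have h1 : ∑ n ∈ Finset.Icc 1 y, ∑ m ∈ n.divisors, ArithmeticFunction.vonMangoldt m =
      ∑ m ∈ Finset.Icc 1 y, ((y / m : ℕ) : ℝ) * ArithmeticFunction.vonMangoldt m :=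
    N3bh.swap (fun m => ArithmeticFunction.vonMangoldt m) y
  have h2 : ∑ n ∈ Finset.Icc 1 y, ∑ m ∈ n.divisors, ArithmeticFunction.vonMangoldt m ≤
      y * Real.log y := by
    have h3 : ∀ n ∈ Finset.Icc 1 y, ∑ m ∈ n.divisors, ArithmeticFunction.vonMangoldt m ≤
        Real.log y := by
      intro n hn
      rw [Finset.mem_Icc] at hn
      rw [ArithmeticFunction.vonMangoldt_sum]
      exact Real.log_le_log (by exact_mod_cast hn.1) (by exact_mod_cast hn.2)
    refine (Finset.sum_le_sum h3).trans (le_of_eq ?_)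
    rw [Finset.sum_const, Nat.card_Icc, nsmul_eq_mul]
    congr 2
  have hsubset : (y + 1).primesBelow ⊆ Finset.Icc 1 y := by
    intro p hp
    rw [Nat.mem_primesBelow] at hp
    rw [Finset.mem_Icc]
    exact ⟨hp.2.one_lt.le, by omega⟩
  have h3 : ∑ p ∈ (y + 1).primesBelow, ((y / p : ℕ) : ℝ) * Real.log p ≤
      ∑ m ∈ Finset.Icc 1 y, ((y / m : ℕ) : ℝ) * ArithmeticFunction.vonMangoldt m := by
    refine le_trans (Finset.sum_le_sum ?_) (Finset.sum_le_sum_of_subset_of_nonneg hsubset ?_)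
    · intro p hp
      rw [Nat.mem_primesBelow] at hp
      rw [ArithmeticFunction.vonMangoldt_apply_prime hp.2]
    · intro m _ _
      exact mul_nonneg (Nat.cast_nonneg _) ArithmeticFunction.vonMangoldt_nonneg
  have h4 : ∀ p ∈ (y + 1).primesBelow, (y : ℝ) * (Real.log p / p) - Real.log p ≤
      ((y / p : ℕ) : ℝ) * Real.log p := by
    intro p hp
    rw [Nat.mem_primesBelow] at hp
    have hp0 : (0 : ℝ) < p := by exact_mod_cast hp.2.pos
    have hl : 0 ≤ Real.log p := Real.log_natCast_nonneg p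
    have h5 : (y : ℝ) / p - 1 ≤ ((y / p : ℕ) : ℝ) := by
      have := Nat.lt_div_mul_add (a := y) (b := p) hp.2.pos
      have h6 : (y : ℝ) < ((y / p : ℕ) : ℝ) * p + p := by exact_mod_cast this
      have h7 : (y : ℝ) / p < ((y / p : ℕ) : ℝ) + 1 := by
        rw [div_lt_iff₀ hp0]
        linarith
      linarith
    calc (y : ℝ) * (Real.log p / p) - Real.log p = ((y : ℝ) / p - 1) * Real.log p := by ring
      _ ≤ _ := mul_le_mul_of_nonneg_right h5 hl
  have h5 : ∑ p ∈ (y + 1).primesBelow, Real.log p ≤ Real.log 4 * y := by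
    have h6 := Chebyshev.theta_le_log4_mul_x (x := (y : ℝ)) hy0.le
    refine le_trans (le_of_eq ?_) h6
    rw [Chebyshev.theta_eq_sum_primesLE_log]
    rfl
  have h6 := Finset.sum_le_sum h4
  rw [Finset.sum_sub_distrib, ← Finset.mul_sum] at h6
  have h7 : (y : ℝ) * ∑ p ∈ (y + 1).primesBelow, Real.log p / p ≤
      y * (Real.log y + Real.log 4) := by
    rw [h1] at h2
    nlinarith
  exact le_of_mul_le_mul_left h7 hy0

/-- the upper bound in the second theorem of Mertens -/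
theorem recip (y : ℕ) (hy : 3 ≤ y) :
    ∑ p ∈ (y + 1).primesBelow, ((p : ℝ))⁻¹ ≤ Real.log (1 + Real.log y) + 3 := by
  have hy3 : (3 : ℝ) ≤ y := by exact_mod_cast hy
  have hy0 : (0 : ℝ) < y := by linarith
  have hly : 1 ≤ Real.log y := by
    rw [Real.le_log_iff_exp_le hy0]
    have := Real.exp_one_lt_d9
    linarith
  obtain ⟨σ, hσ⟩ : ∃ σ : ℝ, σ = 1 + 1 / Real.log y := ⟨_, rfl⟩
  have hσ1 : 1 < σ := by
    rw [hσ]
    have : 0 < 1 / Real.log y := by positivity
    linarith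
  have h1 : ∀ p ∈ (y + 1).primesBelow, ((p : ℝ))⁻¹ ≤
      (p : ℝ) ^ (-σ) + 1 / Real.log y * (Real.log p / p) := by
    intro p hp
    rw [Nat.mem_primesBelow] at hp
    have hp0 : (0 : ℝ) < p := by exact_mod_cast hp.2.pos
    have e : (p : ℝ) ^ (-σ) = ((p : ℝ))⁻¹ * (p : ℝ) ^ (-(1 / Real.log y)) := by
      rw [← Real.rpow_neg_one, ← Real.rpow_add hp0, hσ]
      congr 1
      ring
    have h2 : 1 - 1 / Real.log y * Real.log p ≤ (p : ℝ) ^ (-(1 / Real.log y)) := by
      rw [Real.rpow_def_of_pos hp0]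
      have := Real.add_one_le_exp (Real.log p * -(1 / Real.log y))
      linarith
    rw [e]
    have h3 := mul_le_mul_of_nonneg_left h2 (inv_nonneg.2 hp0.le)
    have e2 : 1 / Real.log y * (Real.log p / p) = ((p : ℝ))⁻¹ * (1 / Real.log y * Real.log p) := by
      rw [div_eq_mul_inv (Real.log p)]
      ring
    rw [e2]
    linarith
  refine (Finset.sum_le_sum h1).trans ?_
  rw [Finset.sum_add_distrib, ← Finset.mul_sum]
  have h2 := mertens1 y (by omega)
  have h3 : 1 / Real.log y * ∑ p ∈ (y + 1).primesBelow, Real.log p / p ≤ 3 := by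
    have h4 : Real.log 4 ≤ 1.4 := by
      have : Real.log 4 = 2 * Real.log 2 := by
        rw [show (4 : ℝ) = 2 ^ 2 by norm_num, Real.log_pow]; norm_num
      have := Real.log_two_lt_d9
      linarith
    rw [one_div_mul_eq_div, div_le_iff₀ (by linarith)]
    linarith
  have h4 : ∑ p ∈ (y + 1).primesBelow, (p : ℝ) ^ (-σ) ≤ Real.log (1 + Real.log y) := by
    rw [Real.le_log_iff_exp_le (by linarith), Real.exp_sum]
    have h5 : ∏ p ∈ (y + 1).primesBelow, Real.exp ((p : ℝ) ^ (-σ)) ≤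
        ∏ p ∈ (y + 1).primesBelow, (1 - (p : ℝ) ^ (-σ))⁻¹ := by
      apply Finset.prod_le_prod
      · intro p _
        exact (Real.exp_pos _).le
      · intro p hp
        rw [Nat.mem_primesBelow] at hp
        have hp2 : (2 : ℝ) ≤ p := by exact_mod_cast hp.2.two_le
        exact exp_le_inv (Real.rpow_lt_one_of_one_lt_of_neg (by linarith) (by linarith))
    refine h5.trans ?_
    rw [fin_prod hσ1]
    have h6 : ∑' n, ((y + 1).smoothNumbers : Set ℕ).indicator (gs σ (by linarith)) n ≤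
        ∑' n, gs σ (by linarith) n := by
      apply Summable.tsum_le_tsum
      · intro n
        exact Set.indicator_le_self' (fun _ _ => gs_nonneg σ (by linarith) _) n
      · exact (gs_summable hσ1).indicator _
      · exact gs_summable hσ1
    refine h6.trans ((zeta_le hσ1).trans (le_of_eq ?_))
    rw [hσ]
    field_simp
    ring
  linarith

theorem inv_le_exp2 {v : ℝ} (hv : |v| ≤ 1 / 2) : (1 - v)⁻¹ ≤ Real.exp (v + 2 * v ^ 2) := by
  have h := Real.abs_log_sub_add_sum_range_le (x := v) (by linarith) 1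
  simp only [Finset.sum_range_one, zero_add, pow_one, Nat.cast_zero, div_one] at h
  have h1 := (abs_le.1 h).1
  have h2 : |v| ^ (1 + 1) / (1 - |v|) ≤ 2 * v ^ 2 := by
    rw [div_le_iff₀ (by linarith)]
    have : |v| ^ (1 + 1) = v ^ 2 := by
      rw [show 1 + 1 = 2 by norm_num, sq_abs]
    rw [this]
    nlinarith [sq_nonneg v]
  have h3 : 0 < 1 - v := by
    have := (abs_le.1 hv).2
    linarith
  have h4 : -(v + 2 * v ^ 2) ≤ Real.log (1 - v) := by linarith
  have h5 : Real.exp (-(v + 2 * v ^ 2)) ≤ 1 - v := by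
    rw [← Real.log_exp (-(v + 2 * v ^ 2))] at h4
    exact (Real.log_le_log_iff (Real.exp_pos _) h3).1 h4
  rw [Real.exp_neg] at h5
  exact inv_le_of_inv_le₀ (Real.exp_pos _) h5

theorem sq_sum (P : Finset ℕ) (hP : ∀ p ∈ P, 2 ≤ p) : ∑ p ∈ P, (((p : ℝ))⁻¹) ^ 2 ≤ 1 := by
  have key : ∀ N : ℕ, 1 ≤ N → ∑ n ∈ Finset.Icc 2 N, (((n : ℝ))⁻¹) ^ 2 ≤ 1 - ((N : ℝ))⁻¹ := by
    intro N hN
    induction N, hN using Nat.le_induction with
    | base => simp
    | succ N hN ih =>
      have e : Finset.Icc 2 (N + 1) = insert (N + 1) (Finset.Icc 2 N) := by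
        ext x
        simp only [Finset.mem_Icc, Finset.mem_insert]
        omega
      rw [e, Finset.sum_insert (by simp)]
      have hN0 : (0 : ℝ) < N := by exact_mod_cast hN
      push_cast
      have h1 : (((N : ℝ) + 1)⁻¹) ^ 2 ≤ ((N : ℝ))⁻¹ - ((N : ℝ) + 1)⁻¹ := by
        have e2 : ((N : ℝ))⁻¹ - ((N : ℝ) + 1)⁻¹ = ((N : ℝ))⁻¹ * ((N : ℝ) + 1)⁻¹ := by
          field_simp
          ring
        rw [e2, pow_two]
        apply mul_le_mul_of_nonneg_right _ (by positivity)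
        exact inv_anti₀ hN0 (by linarith)
      linarith
  have h1 : ∑ p ∈ P, (((p : ℝ))⁻¹) ^ 2 ≤ ∑ n ∈ Finset.Icc 2 (P.sup id + 1), (((n : ℝ))⁻¹) ^ 2 := by
    apply Finset.sum_le_sum_of_subset_of_nonneg
    · intro p hp
      rw [Finset.mem_Icc]
      have h0 : p ≤ P.sup id := Finset.le_sup (f := id) hp
      exact ⟨hP p hp, by omega⟩
    · intro _ _ _
      positivity
  refine h1.trans ((key _ (by omega)).trans ?_)
  have : 0 ≤ (((P.sup id + 1 : ℕ) : ℝ))⁻¹ := by positivity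
  linarith

theorem prod_le {s : ℝ} (hs : 1 < s) (y : ℕ) (hy : 3 ≤ y) :
    ∏ p ∈ (y + 1).primesBelow, (1 - (p : ℝ) ^ (-s))⁻¹ ≤ Real.exp 5 * (1 + Real.log y) := by
  have hy3 : (3 : ℝ) ≤ y := by exact_mod_cast hy
  have hly : 0 ≤ Real.log y := Real.log_natCast_nonneg y
  have h1 : ∏ p ∈ (y + 1).primesBelow, (1 - (p : ℝ) ^ (-s))⁻¹ ≤
      ∏ p ∈ (y + 1).primesBelow, Real.exp (((p : ℝ))⁻¹ + 2 * (((p : ℝ))⁻¹) ^ 2) := by
    apply Finset.prod_le_prod
    · intro p hp
      rw [Nat.mem_primesBelow] at hp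
      have hp2 : (2 : ℝ) ≤ p := by exact_mod_cast hp.2.two_le
      have := Real.rpow_lt_one_of_one_lt_of_neg (x := (p : ℝ)) (z := -s) (by linarith) (by linarith)
      rw [inv_nonneg]
      linarith
    · intro p hp
      rw [Nat.mem_primesBelow] at hp
      have hp2 : (2 : ℝ) ≤ p := by exact_mod_cast hp.2.two_le
      have hp0 : (0 : ℝ) < p := by linarith
      have ht : (p : ℝ) ^ (-s) ≤ ((p : ℝ))⁻¹ := by
        rw [← Real.rpow_neg_one]
        exact Real.rpow_le_rpow_of_exponent_le (by linarith) (by linarith)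
      have ht2 : ((p : ℝ))⁻¹ ≤ 1 / 2 := by
        rw [inv_eq_one_div]
        exact one_div_le_one_div_of_le (by norm_num) hp2
      have ht0 : 0 ≤ ((p : ℝ))⁻¹ := by positivity
      have h2 := inv_le_exp2 (v := ((p : ℝ))⁻¹) (by rw [abs_of_nonneg ht0]; exact ht2)
      refine le_trans ?_ h2
      exact inv_anti₀ (by linarith) (by linarith)
  refine h1.trans ?_
  rw [← Real.exp_sum, Finset.sum_add_distrib, ← Finset.mul_sum]
  have h2 := recip y hy
  have h3 := sq_sum (y + 1).primesBelow (fun p hp => (Nat.mem_primesBelow.1 hp).2.two_le)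
  calc Real.exp (∑ p ∈ (y + 1).primesBelow, ((p : ℝ))⁻¹ +
        2 * ∑ p ∈ (y + 1).primesBelow, (((p : ℝ))⁻¹) ^ 2)
      ≤ Real.exp (5 + Real.log (1 + Real.log y)) := Real.exp_le_exp.2 (by linarith)
    _ = _ := by rw [Real.exp_add, Real.exp_log (by linarith)]

/-- upper bound for `L(s, χ_D)` -/
theorem F_le (D : ℕ) {s : ℝ} (hs : 1 < s) (y z : ℕ) (hy : 3 ≤ y) (hyz : y ≤ z)
    (h : (s - 1) * Real.log z ≤ 1) :
    ∑' n, fs D s (by linarith) n ≤ (Real.exp 5 * (1 + Real.log y)) *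
      Real.exp (∑ p ∈ (Finset.Ioc y z).filter Nat.Prime, (chi D p : ℝ) * (p : ℝ) ^ (-s) + 2) *
      ((1 + 1 / (s - 1)) / (Real.exp (-1) * Real.log z)) := by
  have hs0 : 0 < s := by linarith
  have hz3 : (3 : ℝ) ≤ z := by exact_mod_cast hy.trans hyz
  have hlz : 0 < Real.log z := Real.log_pos (by linarith)
  -- the limits
  have hf := EulerProduct.eulerProduct_completely_multiplicative (f := fs D s hs0)
    (fs_summable_norm D hs)
  have hg := EulerProduct.eulerProduct_completely_multiplicative (f := gs s hs0)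
    (gs_summable_norm hs)
  set A : ℝ := Real.exp 5 * (1 + Real.log y) with hA
  set S : ℝ := ∑ p ∈ (Finset.Ioc y z).filter Nat.Prime, (chi D p : ℝ) * (p : ℝ) ^ (-s) with hS
  set Z : ℝ := ∏ p ∈ (z + 1).primesBelow, (1 - (p : ℝ) ^ (-s))⁻¹ with hZ
  have hZ1 := prod_ge hs z (by omega) h
  rw [← hZ] at hZ1
  have hZ0 : 0 < Real.exp (-1) * Real.log z := mul_pos (Real.exp_pos _) hlz
  have hA0 : 0 ≤ A := by
    have : 0 ≤ Real.log (y : ℝ) := Real.log_natCast_nonneg y
    positivity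
  -- facts on factors
  have fact : ∀ p : ℕ, p.Prime → |fs D s hs0 p| ≤ 1 / 2 ∧ gs s hs0 p ≤ 1 / 2 ∧
      fs D s hs0 p ≤ gs s hs0 p := by
    intro p hp
    have hp2 : (2 : ℝ) ≤ p := by exact_mod_cast hp.two_le
    have ht : gs s hs0 p ≤ ((p : ℝ))⁻¹ := by
      rw [gs_apply, ← Real.rpow_neg_one]
      exact Real.rpow_le_rpow_of_exponent_le (by linarith) (by linarith)
    have ht2 : ((p : ℝ))⁻¹ ≤ 1 / 2 := by
      rw [inv_eq_one_div]
      exact one_div_le_one_div_of_le (by norm_num) hp2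
    have h1 := fs_abs D s hs0 p
    exact ⟨by linarith, by linarith, (le_abs_self _).trans h1⟩
  have finv : ∀ p : ℕ, p.Prime → 0 < (1 - fs D s hs0 p)⁻¹ ∧
      (1 - fs D s hs0 p)⁻¹ ≤ (1 - gs s hs0 p)⁻¹ := by
    intro p hp
    obtain ⟨h1, h2, h3⟩ := fact p hp
    have h4 := (abs_le.1 h1).2
    exact ⟨inv_pos.2 (by linarith), inv_anti₀ (by linarith) (by linarith)⟩
  have key : ∀ N : ℕ, z + 1 ≤ N → ∏ p ∈ N.primesBelow, (1 - fs D s hs0 p)⁻¹ ≤
      A * Real.exp (S + 2) * ((∏ p ∈ N.primesBelow, (1 - gs s hs0 p)⁻¹) /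
        (Real.exp (-1) * Real.log z)) := by
    intro N hN
    set P := (Finset.Ioc y z).filter Nat.Prime with hP
    set Q := N.primesBelow.filter (fun p => z < p) with hQ
    have e1 : N.primesBelow = (z + 1).primesBelow ∪ Q := by
      ext p
      rw [hQ, Finset.mem_union, Finset.mem_filter, Nat.mem_primesBelow, Nat.mem_primesBelow]
      constructor
      · rintro ⟨h1, h2⟩
        rcases Nat.lt_or_ge z p with h3 | h3
        · exact Or.inr ⟨⟨h1, h2⟩, h3⟩
        · exact Or.inl ⟨by omega, h2⟩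
      · rintro (⟨h1, h2⟩ | ⟨⟨h1, h2⟩, -⟩)
        · exact ⟨by omega, h2⟩
        · exact ⟨h1, h2⟩
    have d1 : Disjoint (z + 1).primesBelow Q := by
      rw [Finset.disjoint_left]
      intro p h1 h2
      rw [Nat.mem_primesBelow] at h1
      rw [hQ, Finset.mem_filter] at h2
      omega
    have e2 : (z + 1).primesBelow = (y + 1).primesBelow ∪ P := by
      ext p
      rw [hP, Finset.mem_union, Finset.mem_filter, Nat.mem_primesBelow, Nat.mem_primesBelow,
        Finset.mem_Ioc]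
      constructor
      · rintro ⟨h1, h2⟩
        rcases Nat.lt_or_ge y p with h3 | h3
        · exact Or.inr ⟨⟨h3, by omega⟩, h2⟩
        · exact Or.inl ⟨by omega, h2⟩
      · rintro (⟨h1, h2⟩ | ⟨⟨h1, h2⟩, h3⟩)
        · exact ⟨by omega, h2⟩
        · exact ⟨by omega, h3⟩
    have d2 : Disjoint (y + 1).primesBelow P := by
      rw [Finset.disjoint_left]
      intro p h1 h2
      rw [Nat.mem_primesBelow] at h1
      rw [hP, Finset.mem_filter, Finset.mem_Ioc] at h2
      omega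
    have hprP : ∀ p ∈ P, p.Prime := fun p hp => by
      rw [hP, Finset.mem_filter] at hp
      exact hp.2
    have hprQ : ∀ p ∈ Q, p.Prime := fun p hp => by
      rw [hQ, Finset.mem_filter, Nat.mem_primesBelow] at hp
      exact hp.1.2
    have a1 : ∏ p ∈ (y + 1).primesBelow, (1 - fs D s hs0 p)⁻¹ ≤ A := by
      refine le_trans ?_ (prod_le hs y hy)
      apply Finset.prod_le_prod
      · intro p hp
        exact (finv p (Nat.mem_primesBelow.1 hp).2).1.le
      · intro p hp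
        exact (finv p (Nat.mem_primesBelow.1 hp).2).2
    have a2 : ∏ p ∈ P, (1 - fs D s hs0 p)⁻¹ ≤ Real.exp (S + 2) := by
      have h1 : ∏ p ∈ P, (1 - fs D s hs0 p)⁻¹ ≤
          ∏ p ∈ P, Real.exp (fs D s hs0 p + 2 * (((p : ℝ))⁻¹) ^ 2) := by
        apply Finset.prod_le_prod
        · intro p hp
          exact (finv p (hprP p hp)).1.le
        · intro p hp
          have hp1 := hprP p hp
          refine (inv_le_exp2 (fact p hp1).1).trans (Real.exp_le_exp.2 ?_)
          have hp2 : (2 : ℝ) ≤ p := by exact_mod_cast hp1.two_le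
          have h2 : |fs D s hs0 p| ≤ ((p : ℝ))⁻¹ := by
            refine (fs_abs D s hs0 p).trans ?_
            rw [gs_apply, ← Real.rpow_neg_one]
            exact Real.rpow_le_rpow_of_exponent_le (by linarith) (by linarith)
          have h3 : (fs D s hs0 p) ^ 2 ≤ (((p : ℝ))⁻¹) ^ 2 := by
            rw [← sq_abs]
            exact pow_le_pow_left₀ (abs_nonneg _) h2 2
          linarith
      refine h1.trans ?_
      rw [← Real.exp_sum]
      apply Real.exp_le_exp.2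
      rw [Finset.sum_add_distrib, ← Finset.mul_sum]
      have h4 := sq_sum P (fun p hp => (hprP p hp).two_le)
      have h5 : ∑ p ∈ P, fs D s hs0 p = S := rfl
      rw [h5]
      linarith
    have a3 : ∏ p ∈ Q, (1 - fs D s hs0 p)⁻¹ ≤ ∏ p ∈ Q, (1 - gs s hs0 p)⁻¹ := by
      apply Finset.prod_le_prod
      · intro p hp
        exact (finv p (hprQ p hp)).1.le
      · intro p hp
        exact (finv p (hprQ p hp)).2
    have b1 : 0 ≤ ∏ p ∈ P, (1 - fs D s hs0 p)⁻¹ :=
      Finset.prod_nonneg fun p hp => (finv p (hprP p hp)).1.le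
    have b2 : 0 ≤ ∏ p ∈ Q, (1 - fs D s hs0 p)⁻¹ :=
      Finset.prod_nonneg fun p hp => (finv p (hprQ p hp)).1.le
    have b3 : 0 ≤ ∏ p ∈ Q, (1 - gs s hs0 p)⁻¹ := b2.trans a3
    have e3 : ∏ p ∈ N.primesBelow, (1 - gs s hs0 p)⁻¹ = Z * ∏ p ∈ Q, (1 - gs s hs0 p)⁻¹ := by
      rw [e1, Finset.prod_union d1]
      rfl
    rw [e3]
    rw [e1, Finset.prod_union d1, e2, Finset.prod_union d2]
    have c1 : (∏ p ∈ (y + 1).primesBelow, (1 - fs D s hs0 p)⁻¹) * ∏ p ∈ P, (1 - fs D s hs0 p)⁻¹ ≤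
        A * Real.exp (S + 2) := mul_le_mul a1 a2 b1 hA0
    have c2 : ∏ p ∈ Q, (1 - gs s hs0 p)⁻¹ ≤ Z * (∏ p ∈ Q, (1 - gs s hs0 p)⁻¹) /
        (Real.exp (-1) * Real.log z) := by
      rw [le_div_iff₀ hZ0]
      calc (∏ p ∈ Q, (1 - gs s hs0 p)⁻¹) * (Real.exp (-1) * Real.log z) ≤
            (∏ p ∈ Q, (1 - gs s hs0 p)⁻¹) * Z := mul_le_mul_of_nonneg_left hZ1 b3
        _ = _ := mul_comm _ _
    exact mul_le_mul c1 (a3.trans c2) b2 (mul_nonneg hA0 (Real.exp_pos _).le)
  have hlim : Tendsto (fun N : ℕ => A * Real.exp (S + 2) *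
      ((∏ p ∈ N.primesBelow, (1 - gs s hs0 p)⁻¹) / (Real.exp (-1) * Real.log z))) atTop
      (nhds (A * Real.exp (S + 2) * ((∑' n, gs s hs0 n) / (Real.exp (-1) * Real.log z)))) :=
    (hg.div_const _).const_mul _
  have h1 := le_of_tendsto_of_tendsto hf hlim (by
    filter_upwards [eventually_ge_atTop (z + 1)] with N hN
    exact key N hN)
  refine h1.trans ?_
  apply mul_le_mul_of_nonneg_left _ (mul_nonneg hA0 (Real.exp_pos _).le)
  exact div_le_div_of_nonneg_right (zeta_le hs) hZ0.le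

end Pool.Agent.U787.VS
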