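import Pool.Agent.U787.VS.C

/-!
# Very short intervals, part D: `L(1, χ)` is at most a constant times `L(s, χ)`, `s = 1 + 1 / log D`
-/

set_option autoImplicit false

namespace Pool.Agent.U787.VS

open Finset Filter Pool.Agent.H38R2.CG

/-- divisor sums of the character -/
noncomputable def rr (D n : ℕ) : ℝ := ∑ m ∈ n.divisors, (chi D m : ℝ)

/-- terms of the product series -/
noncomputable def cc (D : ℕ) (s : ℝ) (hs : 0 < s) (n : ℕ) : ℝ :=
  ∑ p ∈ n.divisorsAntidiagonal, gs s hs p.1 * fs D s hs p.2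

theorem cc_eq (D : ℕ) (s : ℝ) (hs : 0 < s) {n : ℕ} (hn : 1 ≤ n) :
    cc D s hs n = rr D n * (n : ℝ) ^ (-s) := by
  unfold cc rr
  have h1 : ∀ p ∈ n.divisorsAntidiagonal, gs s hs p.1 * fs D s hs p.2 =
      (chi D p.2 : ℝ) * (n : ℝ) ^ (-s) := by
    intro p hp
    rw [Nat.mem_divisorsAntidiagonal] at hp
    rw [gs_apply, fs_apply, ← hp.1]
    push_cast
    rw [Real.mul_rpow (Nat.cast_nonneg _) (Nat.cast_nonneg _)]
    ring
  rw [Finset.sum_congr rfl h1, ← Finset.sum_mul]
  congr 1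
  exact Nat.sum_divisorsAntidiagonal' (f := fun _ i => (chi D i : ℝ))

open LSeries in
theorem cc_sum (D : ℕ) {s : ℝ} (hs : 1 < s) : Summable (cc D s (by linarith)) ∧
    ∑' n, cc D s (by linarith) n =
      (∑' n, gs s (by linarith) n) * ∑' n, fs D s (by linarith) n := by
  have hs0 : 0 < s := by linarith
  set f1 : ℕ → ℂ := fun _ => 1 with hf1
  set f2 : ℕ → ℂ := fun n => ((chi D n : ℝ) : ℂ) with hf2
  have t1 : ∀ n, term f1 (s : ℂ) n = ((gs s hs0 n : ℝ) : ℂ) := by
    intro n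
    rcases Nat.eq_zero_or_pos n with rfl | hn
    · rw [term_zero, map_zero, Complex.ofReal_zero]
    · rw [term_of_ne_zero (by omega), gs_apply, Real.rpow_neg (Nat.cast_nonneg n), Complex.ofReal_inv,
        Complex.ofReal_cpow (Nat.cast_nonneg n), Complex.ofReal_natCast, hf1, one_div]
  have t2 : ∀ n, term f2 (s : ℂ) n = ((fs D s hs0 n : ℝ) : ℂ) := by
    intro n
    rcases Nat.eq_zero_or_pos n with rfl | hn
    · rw [term_zero, map_zero, Complex.ofReal_zero]
    · rw [term_of_ne_zero (by omega), fs_apply, Real.rpow_neg (Nat.cast_nonneg n), Complex.ofReal_mul,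
        Complex.ofReal_inv, Complex.ofReal_cpow (Nat.cast_nonneg n), Complex.ofReal_natCast, hf2,
        div_eq_mul_inv]
  have s1 : LSeriesSummable f1 (s : ℂ) := by
    unfold LSeriesSummable
    have : (fun n => term f1 (s : ℂ) n) = fun n => ((gs s hs0 n : ℝ) : ℂ) := funext t1
    rw [show term f1 (s : ℂ) = fun n => term f1 (s : ℂ) n from rfl, this]
    exact Complex.hasSum_ofReal.2 (gs_summable hs).hasSum |>.summable
  have s2 : LSeriesSummable f2 (s : ℂ) := by
    unfold LSeriesSummable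
    have : (fun n => term f2 (s : ℂ) n) = fun n => ((fs D s hs0 n : ℝ) : ℂ) := funext t2
    rw [show term f2 (s : ℂ) = fun n => term f2 (s : ℂ) n from rfl, this]
    exact Complex.hasSum_ofReal.2 (fs_summable_norm D hs).of_norm.hasSum |>.summable
  have l1 : LSeries f1 (s : ℂ) = ((∑' n, gs s hs0 n : ℝ) : ℂ) := by
    unfold LSeries
    rw [Complex.ofReal_tsum]
    exact tsum_congr t1
  have l2 : LSeries f2 (s : ℂ) = ((∑' n, fs D s hs0 n : ℝ) : ℂ) := by
    unfold LSeries
    rw [Complex.ofReal_tsum]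
    exact tsum_congr t2
  have t3 : ∀ n, term (LSeries.convolution f1 f2) (s : ℂ) n = ((cc D s hs0 n : ℝ) : ℂ) := by
    intro n
    rw [term_convolution]
    unfold cc
    rw [Complex.ofReal_sum]
    apply Finset.sum_congr rfl
    intro p _
    rw [t1, t2, Complex.ofReal_mul]
  have s3 : LSeriesSummable (LSeries.convolution f1 f2) (s : ℂ) := LSeriesSummable.convolution s1 s2
  have s3' : Summable (cc D s hs0) := by
    unfold LSeriesSummable at s3
    have : term (LSeries.convolution f1 f2) (s : ℂ) = fun n => ((cc D s hs0 n : ℝ) : ℂ) := funext t3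
    rw [this] at s3
    exact Complex.summable_ofReal.1 s3
  refine ⟨s3', ?_⟩
  have l3 : LSeries (LSeries.convolution f1 f2) (s : ℂ) = ((∑' n, cc D s hs0 n : ℝ) : ℂ) := by
    unfold LSeries
    rw [Complex.ofReal_tsum]
    exact tsum_congr t3
  have h := LSeries_convolution' s1 s2
  rw [l3, l1, l2, ← Complex.ofReal_mul] at h
  exact Complex.ofReal_injective h

theorem cc_part (D : ℕ) {s : ℝ} (hs : 1 < s) (hr : ∀ n, 1 ≤ n → 0 ≤ rr D n) (N : ℕ) :
    ∑ n ∈ Finset.Icc 1 N, rr D n * (n : ℝ) ^ (-s) ≤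
      (∑' n, gs s (by linarith) n) * ∑' n, fs D s (by linarith) n := by
  obtain ⟨h1, h2⟩ := cc_sum D hs
  rw [← h2]
  have h3 : ∑ n ∈ Finset.Icc 1 N, rr D n * (n : ℝ) ^ (-s) =
      ∑ n ∈ Finset.Icc 1 N, cc D s (by linarith) n := by
    apply Finset.sum_congr rfl
    intro n hn
    rw [Finset.mem_Icc] at hn
    rw [cc_eq D s _ hn.1]
  rw [h3]
  apply Summable.sum_le_tsum _ _ h1
  intro n _
  rcases Nat.eq_zero_or_pos n with rfl | hn
  · unfold cc
    simp
  · rw [cc_eq D s _ hn]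
    exact mul_nonneg (hr n hn) (Real.rpow_nonneg (Nat.cast_nonneg n) _)

/-- Abel summation from below -/
theorem lower (r w : ℕ → ℝ) (κ : ℝ) (T : ℕ) (hr : ∀ n, 1 ≤ n → 0 ≤ r n) (hw : ∀ n, 0 ≤ w n)
    (hanti : ∀ m n, 1 ≤ m → m ≤ n → w n ≤ w m) (hκ : 0 ≤ κ)
    (hT : 1 ≤ T) (hA : ∀ N : ℕ, T ≤ N → κ * N ≤ ∑ n ∈ Finset.Icc 1 N, r n) :
    ∀ N : ℕ, T ≤ N → κ * ∑ n ∈ Finset.Ioc T N, w n ≤ ∑ n ∈ Finset.Icc 1 N, r n * w n := by
  have key : ∀ N : ℕ, T ≤ N → κ * ∑ n ∈ Finset.Ioc T N, w n +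
      (∑ n ∈ Finset.Icc 1 N, r n - κ * N) * w N ≤ ∑ n ∈ Finset.Icc 1 N, r n * w n := by
    intro N hN
    induction N, hN using Nat.le_induction with
    | base =>
      rw [Finset.Ioc_self, Finset.sum_empty, mul_zero, zero_add]
      have h1 : (∑ n ∈ Finset.Icc 1 T, r n) * w T ≤ ∑ n ∈ Finset.Icc 1 T, r n * w n := by
        rw [Finset.sum_mul]
        apply Finset.sum_le_sum
        intro n hn
        rw [Finset.mem_Icc] at hn
        exact mul_le_mul_of_nonneg_left (hanti n T hn.1 hn.2) (hr n hn.1)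
      have h2 : 0 ≤ κ * T * w T := mul_nonneg (mul_nonneg hκ (Nat.cast_nonneg T)) (hw T)
      nlinarith
    | succ N hN ih =>
      have e1 : Finset.Icc 1 (N + 1) = insert (N + 1) (Finset.Icc 1 N) := by
        ext x
        simp only [Finset.mem_Icc, Finset.mem_insert]
        omega
      have h3 := hA N hN
      have h4 := hanti N (N + 1) (by omega) (by omega)
      have h5 := mul_le_mul_of_nonneg_left h4 (sub_nonneg.2 h3)
      rw [e1, Finset.sum_insert (by simp), Finset.sum_insert (by simp),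
        Finset.sum_Ioc_succ_top (by omega)]
      push_cast
      linarith
  intro N hN
  have h1 := key N hN
  have h2 := mul_nonneg (sub_nonneg.2 (hA N hN)) (hw N)
  linarith

/-- mean value of the divisor sums -/
theorem mean : ∃ C : ℝ, 0 < C ∧ ∀ D : ℕ, IsFund D → ∀ N : ℕ, 1 ≤ N →
    |(∑ n ∈ Finset.Icc 1 N, rr D n) / N - Lone D| ≤
      (4 * (C * √(D : ℝ) * Real.log D) + 1) / (Nat.sqrt N : ℝ) := by
  obtain ⟨C, hC, hPV⟩ := T_PV
  obtain ⟨C', hC', hN⟩ := Pool.Agent.U689.CN.n3a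
  refine ⟨C + C', by positivity, ?_⟩
  intro D hD N hN1
  obtain ⟨χ, hχ1, hχ⟩ := T_KR D hD
  have hD1 : 1 < D := hD.1
  have hDr : (1 : ℝ) < D := by exact_mod_cast hD1
  have hlog : 0 < Real.log D := Real.log_pos hDr
  have hsq : 0 < √(D : ℝ) := Real.sqrt_pos.mpr (by linarith)
  have hB1 : 0 < C * √(D : ℝ) * Real.log D := by positivity
  have hB2 : 0 < C' * √(D : ℝ) * Real.log D := by positivity
  have hB : (C + C') * √(D : ℝ) * Real.log D =
      C * √(D : ℝ) * Real.log D + C' * √(D : ℝ) * Real.log D := by ring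
  rw [hB]
  refine N3bh.bound (fun m => (chi D m : ℝ))
    (C * √(D : ℝ) * Real.log D + C' * √(D : ℝ) * Real.log D) (Lone D) (by linarith) ?_ ?_ ?_ N hN1
  · intro n hn
    have h := DirichletCharacter.norm_le_one χ (n : ZMod D)
    rw [hχ n hn, Complex.norm_intCast] at h
    exact_mod_cast h
  · intro a b
    have h := hPV D χ hD1 hχ1 a b
    have e : ∑ n ∈ Finset.Ioc a b, χ (n : ZMod D) =
        ((∑ n ∈ Finset.Ioc a b, (chi D n : ℝ) : ℝ) : ℂ) := by
      push_cast
      apply Finset.sum_congr rfl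
      intro n hn
      rw [Finset.mem_Ioc] at hn
      exact hχ n (by omega)
    rw [e, Complex.norm_real, Real.norm_eq_abs] at h
    linarith
  · intro M hM1
    have h := hN D hD M hM1
    refine h.trans ?_
    apply div_le_div_of_nonneg_right _ (by positivity)
    linarith

/-- `L(1, χ)` against `ζ(s) L(s, χ)` -/
theorem lone_le_s : ∃ D0 : ℕ, ∀ D : ℕ, D0 ≤ D → IsFund D → (∀ n, 1 ≤ n → 0 ≤ rr D n) →
    ∀ (s : ℝ) (hs : 1 < s), (s - 1) * Real.log D ≤ 2 →
    Lone D ≤ 1 + Real.exp 16 / Real.log D *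
      ((∑' n, gs s (by linarith) n) * ∑' n, fs D s (by linarith) n) := by
  obtain ⟨C, hC, hmean⟩ := mean
  refine ⟨⌈8 * C + 3⌉₊, ?_⟩
  intro D hD0 hD hr s hs hsD
  have hDr : 8 * C + 3 ≤ (D : ℝ) := (Nat.le_ceil _).trans (by exact_mod_cast hD0)
  have hD3 : (3 : ℝ) ≤ D := by linarith
  have hDp : (0 : ℝ) < D := by linarith
  have hDn : 3 ≤ D := by exact_mod_cast hD3
  have hlD : 1 ≤ Real.log D := by
    rw [Real.le_log_iff_exp_le hDp]
    have := Real.exp_one_lt_d9
    linarith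
  have hcc := cc_part D hs hr
  set ZF : ℝ := (∑' n, gs s (by linarith) n) * ∑' n, fs D s (by linarith) n with hZF
  have hZF0 : 0 ≤ ZF := by
    have := hcc 0
    simpa using this
  rcases le_or_gt (Lone D) 1 with hL1 | hL1
  · have : 0 ≤ Real.exp 16 / Real.log D * ZF :=
      mul_nonneg (div_nonneg (Real.exp_pos _).le (by linarith)) hZF0
    linarith
  set κ : ℝ := Lone D - 1 with hκ
  have hκ0 : 0 ≤ κ := by linarith
  -- mean values
  have hA : ∀ N : ℕ, D ^ 4 ≤ N → κ * N ≤ ∑ n ∈ Finset.Icc 1 N, rr D n := by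
    intro N hN
    have hN1 : 1 ≤ N := le_trans (Nat.one_le_pow _ _ (by omega)) hN
    have hN0 : (0 : ℝ) < N := by exact_mod_cast hN1
    have h1 := (abs_le.1 (hmean D hD N hN1)).1
    have h2 : (D : ℝ) ^ 2 ≤ (Nat.sqrt N : ℝ) := by
      have : D ^ 2 ≤ Nat.sqrt N := by
        rw [Nat.le_sqrt']
        calc (D ^ 2) ^ 2 = D ^ 4 := by ring
          _ ≤ N := hN
      exact_mod_cast this
    have h3 : √(D : ℝ) * Real.log D ≤ 2 * D := by
      have e1 : Real.log √(D : ℝ) ≤ √(D : ℝ) - 1 :=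
        Real.log_le_sub_one_of_pos (Real.sqrt_pos.2 hDp)
      rw [Real.log_sqrt hDp.le] at e1
      have e2 : √(D : ℝ) * √(D : ℝ) = D := Real.mul_self_sqrt hDp.le
      have e3 := Real.sqrt_nonneg (D : ℝ)
      nlinarith
    have h4 : (4 * (C * √(D : ℝ) * Real.log D) + 1) / (Nat.sqrt N : ℝ) ≤ 1 := by
      have h5 : (0 : ℝ) < (Nat.sqrt N : ℝ) := lt_of_lt_of_le (by positivity) h2
      rw [div_le_one h5]
      refine le_trans ?_ h2
      have h6 : C * (√(D : ℝ) * Real.log D) ≤ C * (2 * D) := mul_le_mul_of_nonneg_left h3 hC.le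
      nlinarith
    have h5 : κ ≤ (∑ n ∈ Finset.Icc 1 N, rr D n) / N := by
      rw [hκ]
      linarith
    rwa [le_div_iff₀ hN0] at h5
  have hlow := lower (rr D) (fun n => if n = 0 then 1 else (n : ℝ) ^ (-s)) κ (D ^ 4) hr ?_ ?_ hκ0
    (Nat.one_le_pow _ _ (by omega)) hA (D ^ 8) (Nat.pow_le_pow_right (by omega) (by norm_num))
  rotate_left
  · intro n
    split_ifs
    · norm_num
    · exact Real.rpow_nonneg (Nat.cast_nonneg n) _
  · intro m n hm hmn
    rw [if_neg (by omega), if_neg (by omega)]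
    apply Real.rpow_le_rpow_of_nonpos _ (by exact_mod_cast hmn) (by linarith)
    exact_mod_cast hm
  have e1 : ∑ n ∈ Finset.Icc 1 (D ^ 8), rr D n * (if n = 0 then 1 else (n : ℝ) ^ (-s)) =
      ∑ n ∈ Finset.Icc 1 (D ^ 8), rr D n * (n : ℝ) ^ (-s) := by
    apply Finset.sum_congr rfl
    intro n hn
    rw [Finset.mem_Icc] at hn
    rw [if_neg (by omega)]
  rw [e1] at hlow
  have h1 := hlow.trans (hcc (D ^ 8))
  have h2 : Real.exp (-16) * Real.log D ≤
      ∑ n ∈ Finset.Ioc (D ^ 4) (D ^ 8), (if n = 0 then 1 else (n : ℝ) ^ (-s)) := by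
    have h3 : ∀ n ∈ Finset.Ioc (D ^ 4) (D ^ 8), Real.exp (-16) * ((n : ℝ))⁻¹ ≤
        (if n = 0 then 1 else (n : ℝ) ^ (-s)) := by
      intro n hn
      rw [Finset.mem_Ioc] at hn
      rw [if_neg (by omega)]
      have hn0 : (0 : ℝ) < n := by
        have : 0 < n := by omega
        exact_mod_cast this
      rw [show -s = -(s - 1) + (-1 : ℝ) by ring, Real.rpow_add hn0, Real.rpow_neg_one]
      apply mul_le_mul_of_nonneg_right _ (by positivity)
      rw [Real.rpow_def_of_pos hn0]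
      apply Real.exp_le_exp.2
      have h4 : Real.log n ≤ 8 * Real.log D := by
        have h5 : (n : ℝ) ≤ (D : ℝ) ^ 8 := by exact_mod_cast hn.2
        have h6 := Real.log_le_log hn0 h5
        rw [Real.log_pow] at h6
        exact_mod_cast h6
      nlinarith
    refine le_trans ?_ (Finset.sum_le_sum h3)
    rw [← Finset.mul_sum]
    apply mul_le_mul_of_nonneg_left _ (Real.exp_pos _).le
    have h5 := log_add_one_le_harmonic (D ^ 8)
    have h6 := harmonic_le_one_add_log (D ^ 4)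
    rw [harmonic_eq_sum_Icc] at h5 h6
    have e2 : Finset.Icc 1 (D ^ 8) = Finset.Icc 1 (D ^ 4) ∪ Finset.Ioc (D ^ 4) (D ^ 8) := by
      have : D ^ 4 ≤ D ^ 8 := Nat.pow_le_pow_right (by omega) (by norm_num)
      ext x
      simp only [Finset.mem_Icc, Finset.mem_union, Finset.mem_Ioc]
      omega
    have d2 : Disjoint (Finset.Icc 1 (D ^ 4)) (Finset.Ioc (D ^ 4) (D ^ 8)) := by
      rw [Finset.disjoint_left]
      intro x hx hx2
      rw [Finset.mem_Icc] at hx
      rw [Finset.mem_Ioc] at hx2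
      omega
    rw [e2, Finset.sum_union d2] at h5
    push_cast at h5 h6
    have h7 : Real.log ((D : ℝ) ^ 8) ≤ Real.log ((D : ℝ) ^ 8 + 1) :=
      Real.log_le_log (by positivity) (by linarith)
    rw [Real.log_pow] at h7
    rw [Real.log_pow] at h6
    push_cast at h6 h7
    linarith
  have h3 : κ * (Real.exp (-16) * Real.log D) ≤ ZF :=
    (mul_le_mul_of_nonneg_left h2 hκ0).trans h1
  have h4 : κ ≤ Real.exp 16 / Real.log D * ZF := by
    rw [div_mul_eq_mul_div, le_div_iff₀ (by linarith)]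
    have h5 := mul_le_mul_of_nonneg_left h3 (Real.exp_pos 16).le
    have h6 : Real.exp 16 * (κ * (Real.exp (-16) * Real.log D)) = κ * Real.log D := by
      rw [Real.exp_neg]
      have := (Real.exp_pos 16).ne'
      field_simp
    linarith
  linarith

/-- the bound for `L(1, χ)` -/
theorem lone_bound : ∃ D0 : ℕ, ∀ D : ℕ, D0 ≤ D → IsFund D → (∀ n, 1 ≤ n → 0 ≤ rr D n) →
    ∀ (s : ℝ) (y z : ℕ), 1 < s → (s - 1) * Real.log D ≤ 2 → 1 / (s - 1) ≤ Real.log D →
    3 ≤ y → y ≤ z → (s - 1) * Real.log z ≤ 1 →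
    ∑ p ∈ (Finset.Ioc y z).filter Nat.Prime, (chi D p : ℝ) * (p : ℝ) ^ (-s) ≤ 1 →
    Lone D ≤ 1 + 4 * Real.exp 25 * (1 + Real.log y) * Real.log D / Real.log z := by
  obtain ⟨D0, hD0⟩ := lone_le_s
  refine ⟨D0 + 3, ?_⟩
  intro D hD hf hr s y z hs h1 h2 hy hyz hz hS
  have h3 := hD0 D (by omega) hf hr s hs h1
  refine h3.trans ?_
  have hD3 : (3 : ℝ) ≤ D := by
    have : 3 ≤ D := by omega
    exact_mod_cast this
  have hlD : 1 ≤ Real.log D := by
    rw [Real.le_log_iff_exp_le (by linarith)]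
    have := Real.exp_one_lt_d9
    linarith
  have hz3 : (3 : ℝ) ≤ z := by exact_mod_cast hy.trans hyz
  have hlz : 0 < Real.log z := Real.log_pos (by linarith)
  have hly : 0 ≤ Real.log y := Real.log_natCast_nonneg y
  have hF := F_le D hs y z hy hyz hz
  have hZ := zeta_le hs
  have hZ0 : 0 ≤ ∑' n : ℕ, gs s (by linarith) n := tsum_nonneg (fun n => gs_nonneg s (by linarith) n)
  have hzz : 1 + 1 / (s - 1) ≤ 2 * Real.log D := by linarith
  have hzz0 : 0 ≤ 1 + 1 / (s - 1) := by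
    have : 0 < s - 1 := by linarith
    positivity
  have hF2 : ∑' n, fs D s (by linarith) n ≤
      2 * Real.exp 9 * (1 + Real.log y) * Real.log D / Real.log z := by
    refine hF.trans ?_
    have e1 : Real.exp (∑ p ∈ (Finset.Ioc y z).filter Nat.Prime, (chi D p : ℝ) * (p : ℝ) ^ (-s) + 2) ≤
        Real.exp 3 := Real.exp_le_exp.2 (by linarith)
    have e2 : (1 + 1 / (s - 1)) / (Real.exp (-1) * Real.log z) ≤
        2 * Real.exp 1 * Real.log D / Real.log z := by
      rw [div_le_div_iff₀ (mul_pos (Real.exp_pos _) hlz) hlz]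
      have e3 : 2 * Real.exp 1 * Real.log D * (Real.exp (-1) * Real.log z) =
          2 * Real.log D * Real.log z := by
        rw [Real.exp_neg]
        have := (Real.exp_pos 1).ne'
        field_simp
      rw [e3]
      exact mul_le_mul_of_nonneg_right hzz hlz.le
    have e4 : Real.exp 9 = Real.exp 5 * Real.exp 3 * Real.exp 1 := by
      rw [← Real.exp_add, ← Real.exp_add]
      norm_num
    calc (Real.exp 5 * (1 + Real.log y)) *
      Real.exp (∑ p ∈ (Finset.Ioc y z).filter Nat.Prime, (chi D p : ℝ) * (p : ℝ) ^ (-s) + 2) *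
      ((1 + 1 / (s - 1)) / (Real.exp (-1) * Real.log z))
        ≤ (Real.exp 5 * (1 + Real.log y)) * Real.exp 3 * (2 * Real.exp 1 * Real.log D / Real.log z) := by
          apply mul_le_mul _ e2 (by positivity) (by positivity)
          exact mul_le_mul_of_nonneg_left e1 (by positivity)
      _ = _ := by
          rw [e4]
          ring
  set Zt := ∑' n : ℕ, gs s (by linarith) n with hZt
  set Ft := ∑' n, fs D s (by linarith) n with hFt
  have hB0 : 0 ≤ 2 * Real.exp 9 * (1 + Real.log y) * Real.log D / Real.log z := by positivity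
  have h4 : Zt * Ft ≤ (2 * Real.log D) *
      (2 * Real.exp 9 * (1 + Real.log y) * Real.log D / Real.log z) := by
    calc Zt * Ft ≤ Zt * (2 * Real.exp 9 * (1 + Real.log y) * Real.log D / Real.log z) :=
          mul_le_mul_of_nonneg_left hF2 hZ0
      _ ≤ _ := mul_le_mul_of_nonneg_right (hZ.trans hzz) hB0
  have h5 : Real.exp 16 / Real.log D * (Zt * Ft) ≤ Real.exp 16 / Real.log D * ((2 * Real.log D) *
      (2 * Real.exp 9 * (1 + Real.log y) * Real.log D / Real.log z)) :=
    mul_le_mul_of_nonneg_left h4 (by positivity)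
  have e5 : Real.exp 25 = Real.exp 16 * Real.exp 9 := by
    rw [← Real.exp_add]
    norm_num
  have h6 : Real.exp 16 / Real.log D * ((2 * Real.log D) *
      (2 * Real.exp 9 * (1 + Real.log y) * Real.log D / Real.log z)) =
      4 * Real.exp 25 * (1 + Real.log y) * Real.log D / Real.log z := by
    rw [e5]
    field_simp
    ring
  linarith

end Pool.Agent.U787.VS
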