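import Pool.Agent.U787.VS.B
import Pool.Agent.U787.VS.E

/-!
# Very short intervals, part F: regulators and class numbers
-/

set_option autoImplicit false

namespace Pool.Agent.U787.VS

open Finset Filter NumberField Pool.Agent.H38R2.CG Pool.Agent.Q276.PL

/-- a small regulator gives a small solution of the Pell equation -/
theorem pell_of_reg {K : Type} [Field K] [NumberField K] {d : ℕ} (h1 : 1 < d) (hs : Squarefree d)
    (h2 : Module.finrank ℚ K = 2) (hx : ∃ x : K, x ^ 2 = (d : K)) {R : ℝ}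
    (hR : Units.regulator K < R / 6) :
    ∃ x y : ℤ, 1 ≤ y ∧ (y : ℝ) ≤ Real.exp R ∧ x ^ 2 - (d : ℤ) * y ^ 2 = 1 := by
  obtain ⟨t, u, ht, hu, htu, he⟩ := Pool.Agent.U689.CN.reg (Pool.Agent.U689.CN.isFund_dsc h1 hs) h2
    (Pool.Agent.U689.CN.discr_eq h1 hs h2 hx)
  have hD5 := Pool.Agent.U689.CN.dsc_ge h1 hs
  obtain ⟨x, y, hx1, hy1, hxy, hle⟩ := Pool.Agent.Q151.PL.uni (dsc d : ℤ) t u (by exact_mod_cast hD5)
    (by exact_mod_cast ht) (by exact_mod_cast hu) htu
  have hle' : (x : ℝ) + y * √(dsc d : ℝ) ≤ (((t : ℝ) + u * √(dsc d : ℝ)) / 2) ^ 6 := by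
    exact_mod_cast hle
  have hDr : (5 : ℝ) ≤ dsc d := by exact_mod_cast hD5
  have hpos : 0 < ((t : ℝ) + u * √(dsc d : ℝ)) / 2 := by
    have : (0 : ℝ) < t := by exact_mod_cast ht
    have h3 : 0 ≤ (u : ℝ) * √(dsc d : ℝ) := by positivity
    linarith
  have hB : (x : ℝ) + y * √(dsc d : ℝ) ≤ Real.exp R := by
    refine hle'.trans ?_
    have h3 : (((t : ℝ) + u * √(dsc d : ℝ)) / 2) ^ 6 =
        Real.exp (((6 : ℕ) : ℝ) * Units.regulator K) := by
      rw [he, Real.exp_nat_mul, Real.exp_log hpos]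
    rw [h3]
    apply Real.exp_le_exp.2
    push_cast
    linarith
  have hx1' : (1 : ℝ) ≤ x := by exact_mod_cast hx1
  have hy1' : (1 : ℝ) ≤ y := by exact_mod_cast hy1
  by_cases h4 : d % 4 = 1
  · have e : dsc d = d := by unfold dsc; rw [if_pos h4]
    rw [e] at hxy hB hD5
    refine ⟨x, y, hy1, ?_, hxy⟩
    have hs1 : 1 ≤ √(d : ℝ) := by
      rw [Real.one_le_sqrt]
      exact_mod_cast (by omega : 1 ≤ d)
    nlinarith
  · have e : dsc d = 4 * d := by unfold dsc; rw [if_neg h4]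
    rw [e] at hxy hB hD5
    refine ⟨x, 2 * y, by omega, ?_, ?_⟩
    · have hs1 : 2 ≤ √((4 * d : ℕ) : ℝ) := by
        apply Real.le_sqrt_of_sq_le
        push_cast
        have : (2 : ℝ) ≤ d := by exact_mod_cast h1
        linarith
      push_cast at hB hs1 ⊢
      nlinarith
    · push_cast at hxy
      rw [← hxy]
      ring

/-- the class number is at most `C √d u ^ 2 / (√(log x) log H)` -/
def Sm (C : ℝ) (x H : ℕ) (u : ℝ) (d : ℕ) : Prop := ∀ (K : Type) [Field K] [NumberField K],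
  Module.finrank ℚ K = 2 → (∃ t : K, t ^ 2 = (d : K)) →
  (classNumber K : ℝ) ≤ C * √(d : ℝ) * u ^ 2 / (√(Real.log x) * Real.log H)

/-- the regulator is at least `c (log x) ^ (3 / 2) / u` -/
def Lr (c : ℝ) (x : ℕ) (u : ℝ) (d : ℕ) : Prop := ∀ (K : Type) [Field K] [NumberField K],
  Module.finrank ℚ K = 2 → (∃ t : K, t ^ 2 = (d : K)) →
  c * (Real.log x * √(Real.log x)) / u ≤ Units.regulator K

/-- regulators -/
theorem regs : ∃ C₀ : ℝ, 1 ≤ C₀ ∧ ∀ (x H : ℕ) (u : ℝ), C₀ ≤ x → H ≤ x →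
    12 * Real.log (Real.log x) ≤ u → 140 * u ≤ √(Real.log x) → Real.exp (307 * u ^ 2) ≤ H →
    ({d : ℕ | x < d ∧ d ≤ x + H ∧ Squarefree d ∧ ¬ Lr (1 / 840) x u d}.ncard : ℝ) ≤
      H * Real.exp (-u) := by
  obtain ⟨C₀, h1, h⟩ := units
  refine ⟨C₀ + 2, by linarith, fun x H u hx hHx hu hu2 hH => ?_⟩
  have hxr : (2 : ℝ) ≤ x := by linarith
  have hU := h x u (by linarith) hu hu2 x H hH
  obtain ⟨S, hS⟩ : ∃ S : Set ℤ, S = {d : ℤ | (x : ℝ) ≤ d ∧ (d : ℝ) ≤ (x : ℝ) + H ∧ (x : ℝ) ≤ d ∧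
      (d : ℝ) ≤ 2 * x ∧ Squarefree d ∧
      ∃ X Y : ℤ, 1 ≤ Y ∧ (Y : ℝ) ≤ Real.exp (Real.log x * √(Real.log x) / (140 * u)) ∧
        X ^ 2 - d * Y ^ 2 = 1} := ⟨_, rfl⟩
  rw [← hS] at hU
  refine le_trans ?_ hU
  have hSf : S.Finite := by
    refine (Pool.Agent.Q65.PL.finite_int (x : ℝ) (2 * x)).subset ?_
    rw [hS]
    rintro d ⟨_, _, h3, h4, _⟩
    exact ⟨h3, h4⟩
  have hmap : ∀ d ∈ {d : ℕ | x < d ∧ d ≤ x + H ∧ Squarefree d ∧ ¬ Lr (1 / 840) x u d},
      ((d : ℕ) : ℤ) ∈ S := by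
    rintro d ⟨hd1, hd2, hsq, hL⟩
    unfold Lr at hL
    push Not at hL
    obtain ⟨K, i1, i2, hK, ht, hR⟩ := hL
    have hd1' : (x : ℝ) ≤ d := by exact_mod_cast hd1.le
    have hd2' : (d : ℝ) ≤ (x : ℝ) + H := by exact_mod_cast hd2
    have hd3' : (d : ℝ) ≤ 2 * x := by
      have : d ≤ 2 * x := by omega
      exact_mod_cast this
    have hx2 : 2 ≤ x := by exact_mod_cast hxr
    have hR' : Units.regulator K < Real.log x * √(Real.log x) / (140 * u) / 6 := by
      refine lt_of_lt_of_eq hR ?_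
      rw [div_div, show 140 * u * 6 = 840 * u by ring, one_div, ← div_div]
      ring
    obtain ⟨X, Y, hY1, hY2, hXY⟩ := pell_of_reg (by omega : 1 < d) hsq hK ht hR'
    rw [hS]
    refine ⟨by exact_mod_cast hd1', by exact_mod_cast hd2', by exact_mod_cast hd1',
      by exact_mod_cast hd3', Int.squarefree_natCast.2 hsq, X, Y, hY1, hY2, hXY⟩
  have h3 : {d : ℕ | x < d ∧ d ≤ x + H ∧ Squarefree d ∧ ¬ Lr (1 / 840) x u d}.ncard ≤ S.ncard := by
    rw [← Set.ncard_image_of_injective _ (Nat.cast_injective : Function.Injective (Nat.cast : ℕ → ℤ))]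
    refine Set.ncard_le_ncard ?_ hSf
    rintro _ ⟨d, hd, rfl⟩
    exact hmap d hd
  exact_mod_cast h3

/-- the main theorem -/
theorem main : ∃ C : ℝ, 1 ≤ C ∧ ∀ (x H : ℕ) (u : ℝ), C ≤ x → H ≤ x →
    C * Real.log (Real.log x) ≤ u → C * u ^ 2 ≤ Real.log H →
    ({d : ℕ | x < d ∧ d ≤ x + H ∧ Squarefree d ∧ ¬ Sm C x H u d}.ncard : ℝ) ≤
      C * H * Real.exp (-u) := by
  obtain ⟨C₀, hC₀, hreg⟩ := regs
  obtain ⟨C₁, x0, hC₁, hlone⟩ := few_lone
  obtain ⟨C, hC⟩ : ∃ C : ℝ, C = C₀ + 2 * C₁ + x0 + 840 * (1 + 96 * Real.exp 25) + 20000 +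
    Real.exp (Real.exp 1) := ⟨_, rfl⟩
  have he25 := Real.exp_pos 25
  have hee := Real.exp_pos (Real.exp 1)
  have hx0' : (0 : ℝ) ≤ x0 := Nat.cast_nonneg x0
  refine ⟨C, by linarith, ?_⟩
  intro x H u hx hHx hu hH
  have hC12 : 20000 ≤ C := by linarith
  have hxe : Real.exp (Real.exp 1) ≤ x := by linarith
  have hx0 : (0 : ℝ) < x := by linarith
  have hlx : Real.exp 1 ≤ Real.log x := by
    rw [Real.le_log_iff_exp_le hx0]
    exact hxe
  have hl0 : 0 < Real.log x := (Real.exp_pos 1).trans_le hlx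
  have hllx : 1 ≤ Real.log (Real.log x) := by
    rw [Real.le_log_iff_exp_le hl0]
    exact hlx
  have hu1 : 20000 ≤ u := by nlinarith
  have hu0 : 0 < u := by linarith
  set v := Real.log H with hv
  have huu : u ≤ u ^ 2 := by nlinarith
  have hv1 : 20000 * u ^ 2 ≤ v := by nlinarith
  have hv2 : 20000 * u ≤ v := by nlinarith
  have hvp : 0 < v := by linarith
  have hHp : (0 : ℝ) < H := by
    by_contra hneg
    have : (H : ℝ) = 0 := le_antisymm (not_lt.1 hneg) (Nat.cast_nonneg H)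
    rw [hv, this, Real.log_zero] at hvp
    exact lt_irrefl _ hvp
  have hHe : Real.exp v = H := Real.exp_log hHp
  have hHxr : (H : ℝ) ≤ x := by exact_mod_cast hHx
  have hvl : v ≤ Real.log x := Real.log_le_log hHp hHxr
  -- regulators
  have hr := hreg x H u (by linarith) hHx (by nlinarith) (by
    apply Real.le_sqrt_of_sq_le
    nlinarith) (by
    rw [← hHe]
    apply Real.exp_le_exp.2
    linarith)
  -- parameters for the L-values
  obtain ⟨y, hy⟩ : ∃ y : ℕ, y = ⌈Real.exp u⌉₊ := ⟨_, rfl⟩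
  obtain ⟨z, hz⟩ : ∃ z : ℕ, z = ⌊√(H : ℝ)⌋₊ := ⟨_, rfl⟩
  have hsH : √(H : ℝ) = Real.exp (v / 2) := by
    rw [← hHe, ← Real.exp_half]
  have hy1 : Real.exp u ≤ y := by
    rw [hy]
    exact Nat.le_ceil _
  have hy2 : (y : ℝ) ≤ Real.exp u + 1 := by
    rw [hy]
    exact (Nat.ceil_lt_add_one (Real.exp_pos u).le).le
  have hz1 : (z : ℝ) ≤ √(H : ℝ) := by
    rw [hz]
    exact Nat.floor_le (Real.sqrt_nonneg _)
  have hz2 : √(H : ℝ) - 1 ≤ z := by
    rw [hz]
    have := Nat.lt_floor_add_one (√(H : ℝ))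
    linarith
  have hexu : u + 1 ≤ Real.exp u := Real.add_one_le_exp u
  have hy3 : (3 : ℝ) ≤ y := by linarith
  have he2 : (2 : ℝ) ≤ Real.exp 1 := by
    have := Real.add_one_le_exp (1 : ℝ)
    linarith
  have hbig : 4 * Real.exp u ≤ √(H : ℝ) := by
    rw [hsH]
    have h4 : (4 : ℝ) ≤ Real.exp 2 := by
      have : Real.exp 2 = Real.exp 1 * Real.exp 1 := by
        rw [← Real.exp_add]
        norm_num
      rw [this]
      nlinarith
    calc 4 * Real.exp u ≤ Real.exp 2 * Real.exp u := mul_le_mul_of_nonneg_right h4 (Real.exp_pos u).le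
      _ = Real.exp (2 + u) := by rw [Real.exp_add]
      _ ≤ _ := Real.exp_le_exp.2 (by linarith)
  have hyz : y ≤ z := by
    have : (y : ℝ) ≤ z := by linarith
    exact_mod_cast this
  have hz3 : (3 : ℝ) ≤ z := hy3.trans (by exact_mod_cast hyz)
  have hH1 : (1 : ℝ) ≤ H := by
    rw [← hHe]
    exact Real.one_le_exp hvp.le
  have hzx : z ≤ x := by
    have h4 : √(H : ℝ) ≤ H := by
      rw [Real.sqrt_le_left hHp.le]
      nlinarith
    have : (z : ℝ) ≤ x := by linarith
    exact_mod_cast this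
  have hL := hlone x H y z (by
    have : (x0 : ℝ) ≤ x := by linarith
    exact_mod_cast this) hHx (by exact_mod_cast hy3) hyz hzx
  have hlz0 : 0 < Real.log z := Real.log_pos (by linarith)
  have hlzv : Real.log z ≤ v / 2 := by
    have := Real.log_le_log (by linarith) hz1
    rwa [hsH, Real.log_exp] at this
  have hlz : v / 4 ≤ Real.log z := by
    have h5 : Real.exp (v / 4) ≤ z := by
      refine le_trans ?_ hz2
      rw [hsH]
      have h6 : Real.exp (v / 2) = Real.exp (v / 4) * Real.exp (v / 4) := by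
        rw [← Real.exp_add]
        congr 1
        ring
      have h7 : 2 ≤ Real.exp (v / 4) := by
        have := Real.add_one_le_exp (v / 4)
        linarith
      rw [h6]
      nlinarith
    have := Real.log_le_log (Real.exp_pos _) h5
    rwa [Real.log_exp] at this
  have hly : Real.log y ≤ u + 1 := by
    have h5 : (y : ℝ) ≤ Real.exp (u + 1) := by
      rw [Real.exp_add]
      nlinarith [Real.exp_pos u]
    have := Real.log_le_log (by linarith) h5
    rwa [Real.log_exp] at this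
  have hly0 : 0 ≤ Real.log y := Real.log_natCast_nonneg y
  -- the value bound
  have hval : 1 + 4 * Real.exp 25 * (1 + Real.log y) * (2 * Real.log x) / Real.log z ≤
      (1 + 96 * Real.exp 25) * (u * Real.log x / v) := by
    have h5 : 1 ≤ u * Real.log x / v := by
      rw [one_le_div hvp]
      nlinarith
    have h6 : 4 * Real.exp 25 * (1 + Real.log y) * (2 * Real.log x) / Real.log z ≤
        96 * Real.exp 25 * (u * Real.log x / v) := by
      rw [div_le_iff₀ hlz0]
      have h7 : 96 * Real.exp 25 * (u * Real.log x / v) * (v / 4) ≤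
          96 * Real.exp 25 * (u * Real.log x / v) * Real.log z :=
        mul_le_mul_of_nonneg_left hlz (by positivity)
      refine le_trans ?_ h7
      have h8 : 96 * Real.exp 25 * (u * Real.log x / v) * (v / 4) =
          24 * Real.exp 25 * (u * Real.log x) := by
        field_simp
        ring
      rw [h8]
      have h9 : 1 + Real.log y ≤ 3 * u := by linarith
      calc 4 * Real.exp 25 * (1 + Real.log y) * (2 * Real.log x) ≤
            4 * Real.exp 25 * (3 * u) * (2 * Real.log x) := by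
            apply mul_le_mul_of_nonneg_right _ (by positivity)
            exact mul_le_mul_of_nonneg_left h9 (by positivity)
        _ = _ := by ring
    nlinarith
  -- inclusion
  obtain ⟨A1, hA1⟩ : ∃ A : Set ℕ, A = {d : ℕ | x < d ∧ d ≤ x + H ∧ Squarefree d ∧
    ¬ Lr (1 / 840) x u d} := ⟨_, rfl⟩
  obtain ⟨A2, hA2⟩ : ∃ A : Set ℕ, A = {d : ℕ | x < d ∧ d ≤ x + H ∧ Squarefree d ∧
      ∃ (K : Type) (_ : Field K) (_ : NumberField K),
      Module.finrank ℚ K = 2 ∧ (∃ t : K, t ^ 2 = (d : K)) ∧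
      1 + 4 * Real.exp 25 * (1 + Real.log y) * (2 * Real.log x) / Real.log z <
        Lone (dsc d)} := ⟨_, rfl⟩
  rw [← hA1] at hr
  rw [← hA2] at hL
  have hfin : ∀ A : Set ℕ, (∀ d ∈ A, x < d ∧ d ≤ x + H) → A.Finite := by
    intro A hA
    refine (Set.finite_Icc 0 (x + H)).subset ?_
    intro d hd
    exact ⟨Nat.zero_le _, (hA d hd).2⟩
  have hA1f : A1.Finite := hfin A1 (fun d hd => by
    rw [hA1] at hd
    exact ⟨hd.1, hd.2.1⟩)
  have hA2f : A2.Finite := hfin A2 (fun d hd => by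
    rw [hA2] at hd
    exact ⟨hd.1, hd.2.1⟩)
  have hsub : {d : ℕ | x < d ∧ d ≤ x + H ∧ Squarefree d ∧ ¬ Sm C x H u d} ⊆ A1 ∪ A2 := by
    rintro d ⟨hd1, hd2, hsq, hn⟩
    by_contra hcon
    rw [Set.mem_union, hA1, hA2] at hcon
    simp only [Set.mem_ofPred_eq, not_or] at hcon
    obtain ⟨c1, c2⟩ := hcon
    apply hn
    intro K i1 i2 hK ht
    have hLr : Lr (1 / 840) x u d := by
      by_contra h5
      exact c1 ⟨hd1, hd2, hsq, h5⟩
    have hR := hLr K hK ht
    have hl1 : Lone (dsc d) ≤ (1 + 96 * Real.exp 25) * (u * Real.log x / v) := by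
      refine le_trans ?_ hval
      by_contra h5
      exact c2 ⟨hd1, hd2, hsq, K, i1, i2, hK, ht, not_le.1 h5⟩
    have hx2 : 2 ≤ x := by
      have : (2 : ℝ) ≤ x := by linarith
      exact_mod_cast this
    have hsl : 0 < √(Real.log x) := Real.sqrt_pos.2 hl0
    have hR0 : 0 < 1 / 840 * (Real.log x * √(Real.log x)) / u := by positivity
    have h5 := Pool.Agent.U689.CN.class_le (by omega : 1 < d) hsq hK ht hR0 hR hl1
    refine h5.trans ?_
    have h6 : √(d : ℝ) * ((1 + 96 * Real.exp 25) * (u * Real.log x / v)) /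
        (1 / 840 * (Real.log x * √(Real.log x)) / u) =
        (840 * (1 + 96 * Real.exp 25)) * √(d : ℝ) * u ^ 2 / (√(Real.log x) * v) := by
      field_simp
    rw [h6]
    apply div_le_div_of_nonneg_right _ (by positivity)
    apply mul_le_mul_of_nonneg_right _ (by positivity)
    apply mul_le_mul_of_nonneg_right _ (Real.sqrt_nonneg _)
    linarith
  have h1 : ({d : ℕ | x < d ∧ d ≤ x + H ∧ Squarefree d ∧ ¬ Sm C x H u d}.ncard : ℝ) ≤
      (A1.ncard : ℝ) + A2.ncard := by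
    have h5 := (Set.ncard_le_ncard hsub (hA1f.union hA2f)).trans (Set.ncard_union_le _ _)
    exact_mod_cast h5
  refine h1.trans ?_
  have hHy : (H : ℝ) / y ≤ H * Real.exp (-u) := by
    rw [div_eq_mul_inv, Real.exp_neg]
    apply mul_le_mul_of_nonneg_left _ hHp.le
    exact inv_anti₀ (Real.exp_pos u) hy1
  have hzz : (z : ℝ) * Real.log z ≤ H * Real.exp (-u) := by
    have h5 : (z : ℝ) * Real.log z ≤ √(H : ℝ) * (v / 2) :=
      mul_le_mul hz1 hlzv hlz0.le (Real.sqrt_nonneg _)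
    refine h5.trans ?_
    have h6 : v / 2 ≤ Real.exp (v / 4) := by
      have h7 := Real.add_one_le_exp (v / 4 - 1)
      have h8 : Real.exp (v / 4) = Real.exp (v / 4 - 1) * Real.exp 1 := by
        rw [← Real.exp_add]
        congr 1
        ring
      rw [h8]
      nlinarith [Real.exp_pos (v / 4 - 1)]
    have h7 : Real.exp (v / 2) * Real.exp (v / 4) ≤ Real.exp v * Real.exp (-u) := by
      rw [← Real.exp_add, ← Real.exp_add]
      apply Real.exp_le_exp.2
      linarith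
    rw [hsH]
    calc Real.exp (v / 2) * (v / 2) ≤ Real.exp (v / 2) * Real.exp (v / 4) :=
          mul_le_mul_of_nonneg_left h6 (Real.exp_pos _).le
      _ ≤ Real.exp v * Real.exp (-u) := h7
      _ = _ := by rw [hHe]
  have hE0 : 0 ≤ (H : ℝ) * Real.exp (-u) := by positivity
  calc (A1.ncard : ℝ) + A2.ncard ≤ H * Real.exp (-u) + C₁ * (H / y + z * Real.log z) :=
        add_le_add hr hL
    _ ≤ H * Real.exp (-u) + C₁ * (H * Real.exp (-u) + H * Real.exp (-u)) := by
        have := mul_le_mul_of_nonneg_left (add_le_add hHy hzz) hC₁.le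
        linarith
    _ = (1 + 2 * C₁) * (H * Real.exp (-u)) := by ring
    _ ≤ C * (H * Real.exp (-u)) := mul_le_mul_of_nonneg_right (by linarith) hE0
    _ = C * H * Real.exp (-u) := by ring

end Pool.Agent.U787.VS
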