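import Pool.Agent.U787.VS.F

/-!
# Very short intervals, part G: intervals `(x, x + H]` with `H ≥ x ^ w`
-/

set_option autoImplicit false

namespace Pool.Agent.U787.VS

open Filter NumberField

/-- class number at most `B` -/
def ClassLE (B : ℝ) (d : ℕ) : Prop := ∀ (K : Type) [Field K] [NumberField K],
  Module.finrank ℚ K = 2 → (∃ t : K, t ^ 2 = (d : K)) → (classNumber K : ℝ) ≤ B

theorem powers (w A : ℝ) (hw : 0 < w) : ∃ C : ℝ, ∀ x H : ℕ, C ≤ x → (x : ℝ) ^ w ≤ H → H ≤ x →
    ({d : ℕ | x < d ∧ d ≤ x + H ∧ Squarefree d ∧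
      ¬ ClassLE (C * √(d : ℝ) * Real.log (Real.log d) ^ 2 / Real.log d ^ (3 / 2 : ℝ)) d}.ncard : ℝ) ≤
      C * H / Real.log x ^ A := by
  obtain ⟨C₀, hC₀, hmain⟩ := main
  obtain ⟨B, hB⟩ : ∃ B : ℝ, B = C₀ + |A| := ⟨_, rfl⟩
  have hB0 : 1 ≤ B := by
    have := abs_nonneg A
    linarith
  -- largeness
  have hll : Tendsto (fun t : ℝ => (Real.log t) ^ 2 / t) atTop (nhds 0) := by
    have h := Real.isLittleO_pow_log_id_atTop (n := 2)
    exact h.tendsto_div_nhds_zero
  have h1 : ∀ᶠ t : ℝ in atTop, C₀ * B ^ 2 * (Real.log t) ^ 2 ≤ w * t := by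
    have h2 := hll.eventually (gt_mem_nhds (show (0 : ℝ) < w / (C₀ * B ^ 2) by positivity))
    filter_upwards [h2, eventually_gt_atTop 0] with t h3 h4
    rw [div_lt_iff₀ h4, div_mul_eq_mul_div, lt_div_iff₀ (by positivity)] at h3
    linarith
  obtain ⟨T, hT⟩ := Filter.eventually_atTop.1 (Real.tendsto_log_atTop.eventually h1)
  obtain ⟨C, hC⟩ : ∃ C : ℝ, C = C₀ + |T| + 3 * C₀ * B ^ 2 / w + Real.exp (Real.exp 1) := ⟨_, rfl⟩
  have hq : 0 ≤ 3 * C₀ * B ^ 2 / w := by positivity
  have hee := Real.exp_pos (Real.exp 1)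
  have habs := abs_nonneg T
  have habs' := le_abs_self T
  refine ⟨C, fun x H hx hxw hHx => ?_⟩
  have hx0 : (0 : ℝ) < x := by linarith
  have hxe : Real.exp (Real.exp 1) ≤ x := by linarith
  have hlx : Real.exp 1 ≤ Real.log x := by
    rw [Real.le_log_iff_exp_le hx0]
    exact hxe
  have hl0 : 0 < Real.log x := (Real.exp_pos 1).trans_le hlx
  have hllx : 1 ≤ Real.log (Real.log x) := by
    rw [Real.le_log_iff_exp_le hl0]
    exact hlx
  have hH0 : (0 : ℝ) < H := lt_of_lt_of_le (Real.rpow_pos_of_pos hx0 w) hxw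
  have hlH : w * Real.log x ≤ Real.log H := by
    have := Real.log_le_log (Real.rpow_pos_of_pos hx0 w) hxw
    rwa [Real.log_rpow hx0] at this
  have hTx := hT x (by linarith)
  have hlH0 : 0 < Real.log H := lt_of_lt_of_le (by positivity) hlH
  have hm := hmain x H (B * Real.log (Real.log x)) (by linarith) hHx
    (mul_le_mul_of_nonneg_right (by have := abs_nonneg A; linarith) (by linarith))
    (by
      calc C₀ * (B * Real.log (Real.log x)) ^ 2 = C₀ * B ^ 2 * Real.log (Real.log x) ^ 2 := by ring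
        _ ≤ w * Real.log x := hTx
        _ ≤ _ := hlH)
  have hfin : {d : ℕ | x < d ∧ d ≤ x + H ∧ Squarefree d ∧
      ¬ Sm C₀ x H (B * Real.log (Real.log x)) d}.Finite := by
    refine (Set.finite_Icc 0 (x + H)).subset ?_
    rintro d ⟨_, hd, _⟩
    exact ⟨Nat.zero_le _, hd⟩
  have hsub : {d : ℕ | x < d ∧ d ≤ x + H ∧ Squarefree d ∧
      ¬ ClassLE (C * √(d : ℝ) * Real.log (Real.log d) ^ 2 / Real.log d ^ (3 / 2 : ℝ)) d} ⊆
      {d : ℕ | x < d ∧ d ≤ x + H ∧ Squarefree d ∧
      ¬ Sm C₀ x H (B * Real.log (Real.log x)) d} := by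
    rintro d ⟨hd1, hd2, hsq, hn⟩
    refine ⟨hd1, hd2, hsq, fun hS => hn ?_⟩
    intro K i1 i2 hK ht
    refine (hS K hK ht).trans ?_
    have hdx : (x : ℝ) ≤ d := by exact_mod_cast hd1.le
    have hd2x : (d : ℝ) ≤ 2 * x := by
      have : d ≤ 2 * x := by omega
      exact_mod_cast this
    have hd0 : (0 : ℝ) < d := by linarith
    have hld : Real.log x ≤ Real.log d := Real.log_le_log hx0 hdx
    have hld0 : 0 < Real.log d := by linarith
    have hlld : Real.log (Real.log x) ≤ Real.log (Real.log d) := Real.log_le_log hl0 hld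
    have he2 : (2 : ℝ) ≤ Real.exp 1 := by
      have := Real.add_one_le_exp (1 : ℝ)
      linarith
    have hld2 : Real.log d ≤ 2 * Real.log x := by
      have := Real.log_le_log hd0 hd2x
      rw [Real.log_mul (by norm_num) hx0.ne'] at this
      have := Real.log_two_lt_d9
      linarith
    -- (log d)^(3/2) ≤ 3 log x √(log x)
    have h32 : Real.log d ^ (3 / 2 : ℝ) ≤ 3 * (Real.log x * √(Real.log x)) := by
      have e1 : Real.log d ^ (3 / 2 : ℝ) ≤ (2 * Real.log x) ^ (3 / 2 : ℝ) :=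
        Real.rpow_le_rpow hld0.le hld2 (by norm_num)
      have e2 : (2 * Real.log x) ^ (3 / 2 : ℝ) = (2 * Real.log x) * √(2 * Real.log x) := by
        rw [show (3 / 2 : ℝ) = 1 + 1 / 2 by norm_num, Real.rpow_add (by positivity), Real.rpow_one,
          Real.sqrt_eq_rpow]
      have e3 : √(2 * Real.log x) = √2 * √(Real.log x) := Real.sqrt_mul (by norm_num) _
      have e4 : √(2 : ℝ) ≤ 3 / 2 := by
        rw [Real.sqrt_le_left (by norm_num)]
        norm_num
      have e5 : 0 ≤ √(Real.log x) := Real.sqrt_nonneg _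
      rw [e2, e3] at e1
      refine e1.trans ?_
      have : 2 * Real.log x * (√2 * √(Real.log x)) = 2 * √2 * (Real.log x * √(Real.log x)) := by ring
      rw [this]
      apply mul_le_mul_of_nonneg_right _ (by positivity)
      linarith
    have hs0 : 0 < √(Real.log x) := Real.sqrt_pos.2 hl0
    have hd32 : 0 < Real.log d ^ (3 / 2 : ℝ) := Real.rpow_pos_of_pos hld0 _
    have hden : w * (Real.log d ^ (3 / 2 : ℝ) / 3) ≤ √(Real.log x) * Real.log H := by
      calc w * (Real.log d ^ (3 / 2 : ℝ) / 3) ≤ w * (Real.log x * √(Real.log x)) := by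
            apply mul_le_mul_of_nonneg_left _ hw.le
            linarith
        _ = √(Real.log x) * (w * Real.log x) := by ring
        _ ≤ _ := mul_le_mul_of_nonneg_left hlH hs0.le
    have hnum : C₀ * √(d : ℝ) * (B * Real.log (Real.log x)) ^ 2 ≤
        C₀ * √(d : ℝ) * (B * Real.log (Real.log d)) ^ 2 := by
      apply mul_le_mul_of_nonneg_left _ (by positivity)
      apply pow_le_pow_left₀ (by positivity)
      exact mul_le_mul_of_nonneg_left hlld (by linarith)
    calc C₀ * √(d : ℝ) * (B * Real.log (Real.log x)) ^ 2 / (√(Real.log x) * Real.log H)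
        ≤ C₀ * √(d : ℝ) * (B * Real.log (Real.log d)) ^ 2 / (w * (Real.log d ^ (3 / 2 : ℝ) / 3)) :=
          div_le_div₀ (by positivity) hnum (by positivity) hden
      _ = (3 * C₀ * B ^ 2 / w) * √(d : ℝ) * Real.log (Real.log d) ^ 2 /
          Real.log d ^ (3 / 2 : ℝ) := by
          field_simp
      _ ≤ C * √(d : ℝ) * Real.log (Real.log d) ^ 2 / Real.log d ^ (3 / 2 : ℝ) := by
          apply div_le_div_of_nonneg_right _ hd32.le
          apply mul_le_mul_of_nonneg_right _ (sq_nonneg _)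
          apply mul_le_mul_of_nonneg_right _ (Real.sqrt_nonneg _)
          linarith
  have h2 : ({d : ℕ | x < d ∧ d ≤ x + H ∧ Squarefree d ∧
      ¬ ClassLE (C * √(d : ℝ) * Real.log (Real.log d) ^ 2 / Real.log d ^ (3 / 2 : ℝ)) d}.ncard : ℝ) ≤
      ({d : ℕ | x < d ∧ d ≤ x + H ∧ Squarefree d ∧
      ¬ Sm C₀ x H (B * Real.log (Real.log x)) d}.ncard : ℝ) := by
    exact_mod_cast Set.ncard_le_ncard hsub hfin
  refine (h2.trans hm).trans ?_
  have h3 : Real.exp (-(B * Real.log (Real.log x))) ≤ (Real.log x ^ A)⁻¹ := by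
    rw [← Real.rpow_neg hl0.le, Real.rpow_def_of_pos hl0]
    apply Real.exp_le_exp.2
    have h4 : A ≤ B := by
      have := le_abs_self A
      linarith
    nlinarith
  have hA0 : 0 < Real.log x ^ A := Real.rpow_pos_of_pos hl0 _
  calc C₀ * H * Real.exp (-(B * Real.log (Real.log x))) ≤ C₀ * H * (Real.log x ^ A)⁻¹ :=
        mul_le_mul_of_nonneg_left h3 (by positivity)
    _ ≤ C * H * (Real.log x ^ A)⁻¹ := by
        apply mul_le_mul_of_nonneg_right _ (by positivity)
        apply mul_le_mul_of_nonneg_right _ hH0.le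
        linarith
    _ = _ := by rw [div_eq_mul_inv]

end Pool.Agent.U787.VS
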